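import Mathlib

/-!
MP_bbc525_pr (helper959): elementary inequalities (first part by helper672, second part by helper628).
-/

set_option autoImplicit false

namespace Pool.Agent.H959.UG


/-- weighted AM-GM -/
theorem amgm_pow {x y : ℝ} (hx : 0 ≤ x) (hy : 0 ≤ y) {a b : ℕ} (hb : 1 ≤ b) (hab : b ≤ a) :
    x ^ b * y ^ (a - b) ≤ ((b : ℝ) * x ^ a + ((a : ℝ) - b) * y ^ a) / a := by
  have ha : (0 : ℝ) < a := by
    have : 0 < a := by omega
    exact_mod_cast this
  have hab' : (b : ℝ) ≤ a := by exact_mod_cast hab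
  have h := Real.geom_mean_le_arith_mean2_weighted (w₁ := (b : ℝ) / a) (w₂ := ((a : ℝ) - b) / a)
    (p₁ := x ^ a) (p₂ := y ^ a) (by positivity) (div_nonneg (by linarith) ha.le) (by positivity)
    (by positivity) (by field_simp; ring)
  have h1 : (x ^ a : ℝ) ^ ((b : ℝ) / a) = x ^ b := by
    rw [← Real.rpow_natCast x a, ← Real.rpow_mul hx, mul_div_cancel₀ _ ha.ne', Real.rpow_natCast]
  have h2 : (y ^ a : ℝ) ^ (((a : ℝ) - b) / a) = y ^ (a - b) := by
    rw [← Real.rpow_natCast y a, ← Real.rpow_mul hy, mul_div_cancel₀ _ ha.ne',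
      ← Nat.cast_sub hab, Real.rpow_natCast]
  rw [h1, h2] at h
  refine h.trans (le_of_eq ?_)
  field_simp

theorem s1_aux {G : ℝ} (h0 : 0 ≤ G) (h1 : G ≤ 1) (a : ℕ) :
    ∑ i ∈ Finset.range a, G ^ i - a * G ^ a ≤ (a : ℝ) * (a + 1) / 2 * (1 - G) := by
  induction a with
  | zero => simp
  | succ a ih =>
    rw [Finset.sum_range_succ, pow_succ]
    push_cast
    have h2 : G ^ a * (1 - G) ≤ 1 - G := by
      have := pow_le_one₀ (n := a) h0 h1
      nlinarith
    have h3 : ((a : ℝ) + 1) * (G ^ a * (1 - G)) ≤ (a + 1) * (1 - G) :=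
      mul_le_mul_of_nonneg_left h2 (by positivity)
    nlinarith

theorem s1_step {G : ℝ} (h0 : 0 ≤ G) (h1 : G ≤ 1) {a : ℕ} (ha : 1 ≤ a) :
    (1 - G ^ a) / a - (1 - G ^ (a + 1)) / ((a : ℝ) + 1) ≤ 1 / 2 * (1 - G) ^ 2 := by
  have ha' : (0 : ℝ) < a := by exact_mod_cast (show 0 < a by omega)
  obtain ⟨S, hS⟩ : ∃ S : ℝ, S = ∑ i ∈ Finset.range a, G ^ i := ⟨_, rfl⟩
  have e1 : 1 - G ^ a = (1 - G) * S := by
    rw [hS]
    exact (mul_neg_geom_sum G a).symm
  have e2 : 1 - G ^ (a + 1) = (1 - G) * (S + G ^ a) := by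
    rw [pow_succ]
    linarith
  have h2 := s1_aux h0 h1 a
  rw [← hS] at h2
  have h3 : (1 - G ^ a) / a - (1 - G ^ (a + 1)) / ((a : ℝ) + 1) =
      (1 - G) * ((S - a * G ^ a) / (a * (a + 1))) := by
    rw [e1, e2]
    field_simp
    ring
  rw [h3]
  have h4 : (S - a * G ^ a) / (a * (a + 1)) ≤ 1 / 2 * (1 - G) := by
    rw [div_le_iff₀ (by positivity)]
    linarith
  calc (1 - G) * ((S - a * G ^ a) / (a * (a + 1))) ≤ (1 - G) * (1 / 2 * (1 - G)) :=
        mul_le_mul_of_nonneg_left h4 (by linarith)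
    _ = 1 / 2 * (1 - G) ^ 2 := by ring

theorem s1 {G : ℝ} (h0 : 0 ≤ G) (h1 : G ≤ 1) {a b : ℕ} (hb : 1 ≤ b) (hab : b ≤ a) :
    (1 - G ^ b) / b - (1 - G ^ a) / a ≤ ((a : ℝ) - b) / 2 * (1 - G) ^ 2 := by
  induction a, hab using Nat.le_induction with
  | base => simp
  | succ a ha ih =>
    have h2 := s1_step h0 h1 (a := a) (by omega)
    push_cast
    linarith

open MeasureTheory in
/-- Jensen/power mean for probability measures -/
theorem pow_mean (f : unitInterval → ℝ) (hm : Measurable f) (M : ℝ) (h0 : ∀ x, 0 ≤ f x)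
    (hM : ∀ x, f x ≤ M) {a b : ℕ} (hb : 1 ≤ b) (hab : b ≤ a) :
    ((∫ x, f x ^ b) ^ (1 / (b : ℝ))) ^ a ≤ ∫ x, f x ^ a := by
  have hint : ∀ k : ℕ, Integrable fun x => f x ^ k := by
    intro k
    refine Integrable.of_bound (hm.pow_const k).aestronglyMeasurable (M ^ k)
      (Filter.Eventually.of_forall fun x => ?_)
    rw [Real.norm_of_nonneg (pow_nonneg (h0 x) k)]
    exact pow_le_pow_left₀ (h0 x) (hM x) k
  obtain ⟨c, hc⟩ : ∃ c : ℝ, c = (∫ x, f x ^ b) ^ (1 / (b : ℝ)) := ⟨_, rfl⟩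
  have hI0 : 0 ≤ ∫ x, f x ^ b := integral_nonneg fun x => pow_nonneg (h0 x) b
  have hc0 : 0 ≤ c := by rw [hc]; exact Real.rpow_nonneg hI0 _
  have hcb : c ^ b = ∫ x, f x ^ b := by
    rw [hc, one_div]
    exact Real.rpow_inv_natCast_pow hI0 (by omega)
  rw [← hc]
  have ha : (0 : ℝ) < a := by
    have : 0 < a := by omega
    exact_mod_cast this
  have hb' : (0 : ℝ) < b := by exact_mod_cast (show 0 < b by omega)
  have h1 : ∫ x, f x ^ b * c ^ (a - b) ≤
      ∫ x, ((b : ℝ) / a * f x ^ a + ((a : ℝ) - b) / a * c ^ a) := by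
    refine integral_mono ((hint b).mul_const _) (((hint a).const_mul _).add (integrable_const _))
      fun x => ?_
    refine (amgm_pow (h0 x) hc0 hb hab).trans (le_of_eq ?_)
    show _ = (b : ℝ) / a * f x ^ a + ((a : ℝ) - b) / a * c ^ a
    ring
  rw [integral_mul_const, integral_add ((hint a).const_mul _) (integrable_const _),
    integral_const_mul, integral_const, ← hcb, ← pow_add, Nat.add_sub_cancel' hab] at h1
  simp only [probReal_univ, smul_eq_mul, one_mul] at h1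
  have h2 : (b : ℝ) / a * c ^ a ≤ (b : ℝ) / a * ∫ x, f x ^ a := by
    have h3 : ((a : ℝ) - b) / a * c ^ a = c ^ a - (b : ℝ) / a * c ^ a := by
      field_simp
    linarith
  exact le_of_mul_le_mul_left h2 (by positivity)




/-- Bernoulli. -/
theorem gam_nonneg {x : ℝ} (hx : 0 ≤ x) (d : ℕ) : 0 ≤ x ^ d - 1 - d * (x - 1) := by
  have h := one_add_mul_le_pow (show (-2 : ℝ) ≤ x - 1 by linarith) d
  have e : (1 + (x - 1)) = x := by ring
  rw [e] at h
  linarith

theorem gam_succ (x : ℝ) (d : ℕ) : x ^ (d + 1) - 1 - ((d + 1 : ℕ) : ℝ) * (x - 1) =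
    x * (x ^ d - 1 - d * (x - 1)) + d * (1 - x) ^ 2 := by
  push_cast
  ring

/-- Induction on `d`. -/
theorem gam_upper {x : ℝ} (h0 : 0 ≤ x) (h1 : x ≤ 1) (d : ℕ) :
    x ^ d - 1 - d * (x - 1) ≤ ((d : ℝ) * (d - 1)) / 2 * (1 - x) ^ 2 := by
  induction d with
  | zero => simp
  | succ d ih =>
    rw [gam_succ]
    have h2 := gam_nonneg h0 d
    have h3 : x * (x ^ d - 1 - d * (x - 1)) ≤ 1 * (x ^ d - 1 - d * (x - 1)) :=
      mul_le_mul_of_nonneg_right h1 h2
    push_cast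
    nlinarith

/-- for `2 ≤ d`, `1 ≤ x`: monotone in `d`. -/
theorem gam_two {x : ℝ} (h1 : 1 ≤ x) {d : ℕ} (hd : 2 ≤ d) :
    (x - 1) ^ 2 ≤ x ^ d - 1 - d * (x - 1) := by
  induction d, hd using Nat.le_induction with
  | base =>
    push_cast
    nlinarith
  | succ d _ ih =>
    rw [gam_succ]
    have h2 := gam_nonneg (show 0 ≤ x by linarith) d
    have h3 : 1 * (x ^ d - 1 - d * (x - 1)) ≤ x * (x ^ d - 1 - d * (x - 1)) :=
      mul_le_mul_of_nonneg_right h1 h2
    have h4 : 0 ≤ (d : ℝ) * (1 - x) ^ 2 := by positivity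
    linarith

theorem pos_part {x : ℝ} (hx : 0 ≤ x) (a : ℕ) :
    max (x ^ a - 1) 0 ≤ (x ^ a - 1 - a * (x - 1)) + a * max (x - 1) 0 := by
  have h2 := gam_nonneg hx a
  rcases le_total 1 x with h | h
  · have h3 : max (x - 1) 0 = x - 1 := max_eq_left (by linarith)
    rw [h3]
    have h4 : 0 ≤ (a : ℝ) * (x - 1) := mul_nonneg (Nat.cast_nonneg a) (by linarith)
    apply max_le <;> linarith
  · have h3 : max (x - 1) 0 = 0 := max_eq_right (by linarith)
    rw [h3]
    have h4 : x ^ a ≤ 1 := pow_le_one₀ hx h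
    apply max_le
    · linarith
    · linarith

/-- `r log (r/q) ≥ (r - q) + (q-r)^2/(2q)` (from `x log x ≥ (x-1) + (1-x)^2/2` on `[0,1]`, derivative
`log x + 1 - x ≤ 0`) and `(1-r) log ((1-r)/(1-q)) ≥ q - r`. -/
theorem kl_lower {r q : ℝ} (hr : 0 ≤ r) (hrq : r ≤ q) (hq0 : 0 < q) (hq1 : q < 1) :
    (q - r) ^ 2 / (2 * q) ≤ r * Real.log (r / q) + (1 - r) * Real.log ((1 - r) / (1 - q)) := by
  have h1 : (r - q) + (q - r) ^ 2 / (2 * q) ≤ r * Real.log (r / q) := by
    rcases hr.eq_or_lt with h | h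
    · rw [← h]
      have : (0 - q) + (q - 0) ^ 2 / (2 * q) = -q / 2 := by
        field_simp
        ring
      rw [this, zero_mul]
      linarith
    · have hx : 0 < q / r := by positivity
      have hx1 : 1 ≤ q / r := by rw [le_div_iff₀ h]; linarith
      have ht : 0 ≤ Real.log (q / r) := Real.log_nonneg hx1
      have h2 := Real.self_le_sinh_iff.2 ht
      rw [Real.sinh_eq, Real.exp_neg, Real.exp_log hx] at h2
      have e1 : Real.log (r / q) = -Real.log (q / r) := by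
        rw [← Real.log_inv, inv_div]
      rw [e1]
      have h3 : r * Real.log (q / r) ≤ r * ((q / r - (q / r)⁻¹) / 2) :=
        mul_le_mul_of_nonneg_left h2 hr
      have e2 : r * ((q / r - (q / r)⁻¹) / 2) = -((r - q) + (q - r) ^ 2 / (2 * q)) := by
        field_simp
        ring
      rw [e2] at h3
      linarith
  have h2 : q - r ≤ (1 - r) * Real.log ((1 - r) / (1 - q)) := by
    have h3 : 0 < 1 - r := by linarith
    have h4 : 0 < 1 - q := by linarith
    have h5 := Real.one_sub_inv_le_log_of_pos (show 0 < (1 - r) / (1 - q) by positivity)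
    have h6 := mul_le_mul_of_nonneg_left h5 h3.le
    have e : (1 - r) * (1 - ((1 - r) / (1 - q))⁻¹) = q - r := by
      field_simp
      ring
    linarith
  linarith


/-- for `2 ≤ d`, `1 ≤ x`. -/
theorem gam_pow {x : ℝ} (h1 : 1 ≤ x) {d : ℕ} (hd : 2 ≤ d) :
    (x - 1) ^ d ≤ x ^ d - 1 - d * (x - 1) := by
  induction d, hd using Nat.le_induction with
  | base =>
    push_cast
    nlinarith
  | succ d _ ih =>
    rw [gam_succ, pow_succ]
    have h0 : 0 ≤ x - 1 := by linarith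
    have h2 : (x - 1) ^ d * (x - 1) ≤ (x ^ d - 1 - d * (x - 1)) * (x - 1) :=
      mul_le_mul_of_nonneg_right ih h0
    have h3 := gam_nonneg (show 0 ≤ x by linarith) d
    have h4 : 0 ≤ (d : ℝ) * (1 - x) ^ 2 := by positivity
    nlinarith

end Pool.Agent.H959.UG
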