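import Mathlib
import Pool.Agent.H959.UG.Elem

/-!
MP_bbc525_pr (helper959): the inequality for one edge type (helper628).
-/

set_option autoImplicit false

namespace Pool.Agent.H959.UG

open MeasureTheory

/-- bounded measurable functions of one variable -/
def Bd1 (f : unitInterval → ℝ) : Prop := Measurable f ∧ ∃ K : ℝ, ∀ x, |f x| ≤ K

/-- bounded measurable functions of two variables -/
def Bd2 (F : unitInterval → unitInterval → ℝ) : Prop :=
  Measurable (Function.uncurry F) ∧ ∃ K : ℝ, ∀ x y, |F x y| ≤ K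

theorem Bd1.int {f : unitInterval → ℝ} (h : Bd1 f) : Integrable f := by
  obtain ⟨hm, K, hK⟩ := h
  exact Integrable.of_bound hm.aestronglyMeasurable K
    (Filter.Eventually.of_forall (fun x => by simpa using hK x))

theorem Bd1.const (c : ℝ) : Bd1 (fun _ => c) := ⟨measurable_const, |c|, fun _ => le_refl _⟩

theorem Bd1.add {f g : unitInterval → ℝ} (hf : Bd1 f) (hg : Bd1 g) :
    Bd1 (fun x => f x + g x) := by
  obtain ⟨hm, K, hK⟩ := hf
  obtain ⟨hm', K', hK'⟩ := hg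
  exact ⟨hm.add hm', K + K', fun x => (abs_add_le _ _).trans (add_le_add (hK x) (hK' x))⟩

theorem Bd1.mul {f g : unitInterval → ℝ} (hf : Bd1 f) (hg : Bd1 g) :
    Bd1 (fun x => f x * g x) := by
  obtain ⟨hm, K, hK⟩ := hf
  obtain ⟨hm', K', hK'⟩ := hg
  refine ⟨hm.mul hm', K * K', fun x => ?_⟩
  rw [abs_mul]
  exact mul_le_mul (hK x) (hK' x) (abs_nonneg _) ((abs_nonneg _).trans (hK x))

theorem Bd1.neg {f : unitInterval → ℝ} (hf : Bd1 f) : Bd1 (fun x => -f x) := by
  obtain ⟨hm, K, hK⟩ := hf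
  exact ⟨hm.neg, K, fun x => by rw [abs_neg]; exact hK x⟩

theorem Bd1.sub {f g : unitInterval → ℝ} (hf : Bd1 f) (hg : Bd1 g) :
    Bd1 (fun x => f x - g x) := by
  have := hf.add hg.neg
  simpa [sub_eq_add_neg] using this

theorem Bd1.pow {f : unitInterval → ℝ} (hf : Bd1 f) (n : ℕ) : Bd1 (fun x => f x ^ n) := by
  induction n with
  | zero => simpa using Bd1.const 1
  | succ n ih => simpa [pow_succ] using ih.mul hf

theorem Bd1.mx {f g : unitInterval → ℝ} (hf : Bd1 f) (hg : Bd1 g) :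
    Bd1 (fun x => max (f x) (g x)) := by
  obtain ⟨hm, K, hK⟩ := hf
  obtain ⟨hm', K', hK'⟩ := hg
  refine ⟨hm.max hm', K + K', fun x => ?_⟩
  have h1 := hK x
  have h2 := hK' x
  have h3 := abs_nonneg (f x)
  have h4 := abs_nonneg (g x)
  show |max (f x) (g x)| ≤ K + K'
  rcases max_choice (f x) (g x) with h | h <;> rw [h] <;> linarith

theorem Bd2.const (c : ℝ) : Bd2 (fun _ _ => c) := ⟨measurable_const, |c|, fun _ _ => le_refl _⟩

theorem Bd2.add {f g : unitInterval → unitInterval → ℝ} (hf : Bd2 f) (hg : Bd2 g) :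
    Bd2 (fun x y => f x y + g x y) := by
  obtain ⟨hm, K, hK⟩ := hf
  obtain ⟨hm', K', hK'⟩ := hg
  exact ⟨hm.add hm', K + K', fun x y => (abs_add_le _ _).trans (add_le_add (hK x y) (hK' x y))⟩

theorem Bd2.mul {f g : unitInterval → unitInterval → ℝ} (hf : Bd2 f) (hg : Bd2 g) :
    Bd2 (fun x y => f x y * g x y) := by
  obtain ⟨hm, K, hK⟩ := hf
  obtain ⟨hm', K', hK'⟩ := hg
  refine ⟨hm.mul hm', K * K', fun x y => ?_⟩
  rw [abs_mul]
  exact mul_le_mul (hK x y) (hK' x y) (abs_nonneg _) ((abs_nonneg _).trans (hK x y))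

theorem Bd2.neg {f : unitInterval → unitInterval → ℝ} (hf : Bd2 f) : Bd2 (fun x y => -f x y) := by
  obtain ⟨hm, K, hK⟩ := hf
  exact ⟨hm.neg, K, fun x y => by rw [abs_neg]; exact hK x y⟩

theorem Bd2.sub {f g : unitInterval → unitInterval → ℝ} (hf : Bd2 f) (hg : Bd2 g) :
    Bd2 (fun x y => f x y - g x y) := by
  have := hf.add hg.neg
  simpa [sub_eq_add_neg] using this

theorem Bd2.pow {f : unitInterval → unitInterval → ℝ} (hf : Bd2 f) (n : ℕ) :
    Bd2 (fun x y => f x y ^ n) := by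
  induction n with
  | zero => simpa using Bd2.const 1
  | succ n ih => simpa [pow_succ] using ih.mul hf

theorem Bd2.mx {f g : unitInterval → unitInterval → ℝ} (hf : Bd2 f) (hg : Bd2 g) :
    Bd2 (fun x y => max (f x y) (g x y)) := by
  obtain ⟨hm, K, hK⟩ := hf
  obtain ⟨hm', K', hK'⟩ := hg
  refine ⟨hm.max hm', K + K', fun x y => ?_⟩
  have h1 := hK x y
  have h2 := hK' x y
  have h3 := abs_nonneg (f x y)
  have h4 := abs_nonneg (g x y)
  show |max (f x y) (g x y)| ≤ K + K'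
  rcases max_choice (f x y) (g x y) with h | h <;> rw [h] <;> linarith

theorem Bd1.fst {f : unitInterval → ℝ} (hf : Bd1 f) : Bd2 (fun x _ => f x) := by
  obtain ⟨hm, K, hK⟩ := hf
  exact ⟨hm.comp measurable_fst, K, fun x _ => hK x⟩

theorem Bd1.snd {f : unitInterval → ℝ} (hf : Bd1 f) : Bd2 (fun _ y => f y) := by
  obtain ⟨hm, K, hK⟩ := hf
  exact ⟨hm.comp measurable_snd, K, fun _ y => hK y⟩

theorem Bd2.row {F : unitInterval → unitInterval → ℝ} (h : Bd2 F) (x : unitInterval) :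
    Bd1 (fun y => F x y) := by
  obtain ⟨hm, K, hK⟩ := h
  exact ⟨hm.comp measurable_prodMk_left, K, hK x⟩

theorem Bd2.integral {F : unitInterval → unitInterval → ℝ} (h : Bd2 F) :
    Bd1 (fun x => ∫ y, F x y) := by
  obtain ⟨hm, K, hK⟩ := h
  refine ⟨(hm.stronglyMeasurable.integral_prod_right).measurable, K, fun x => ?_⟩
  have h1 : ‖∫ y, F x y‖ ≤ K * (volume : Measure unitInterval).real Set.univ :=
    norm_integral_le_of_norm_le_const (Filter.Eventually.of_forall (fun y => by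
      simpa using hK x y))
  simpa using h1

theorem Bd2.int {F : unitInterval → unitInterval → ℝ} (h : Bd2 F) :
    Integrable (Function.uncurry F) (volume.prod volume) := by
  obtain ⟨hm, K, hK⟩ := h
  exact Integrable.of_bound hm.aestronglyMeasurable K
    (Filter.Eventually.of_forall (fun x => by rw [Real.norm_eq_abs]; exact hK x.1 x.2))

theorem Bd2.swap {F : unitInterval → unitInterval → ℝ} (h : Bd2 F) :
    ∫ x, ∫ y, F x y = ∫ y, ∫ x, F x y := integral_integral_swap h.int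

theorem Bd2.int_add {F H : unitInterval → unitInterval → ℝ} (hF : Bd2 F) (hH : Bd2 H) :
    ∫ x, ∫ y, (F x y + H x y) = (∫ x, ∫ y, F x y) + ∫ x, ∫ y, H x y := by
  rw [← integral_add hF.integral.int hH.integral.int]
  congr 1
  funext x
  exact integral_add (hF.row x).int (hH.row x).int

theorem Bd2.int_sub {F H : unitInterval → unitInterval → ℝ} (hF : Bd2 F) (hH : Bd2 H) :
    ∫ x, ∫ y, (F x y - H x y) = (∫ x, ∫ y, F x y) - ∫ x, ∫ y, H x y := by
  rw [← integral_sub hF.integral.int hH.integral.int]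
  congr 1
  funext x
  exact integral_sub (hF.row x).int (hH.row x).int

theorem int_cmul (c : ℝ) (F : unitInterval → unitInterval → ℝ) :
    ∫ x, ∫ y, c * F x y = c * ∫ x, ∫ y, F x y := by
  simp_rw [integral_const_mul]

theorem Bd2.mono {F H : unitInterval → unitInterval → ℝ} (hF : Bd2 F) (hH : Bd2 H)
    (h : ∀ x y, F x y ≤ H x y) : ∫ x, ∫ y, F x y ≤ ∫ x, ∫ y, H x y := by
  apply integral_mono hF.integral.int hH.integral.int
  intro x
  exact integral_mono (hF.row x).int (hH.row x).int (h x)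

theorem edge_ineq (X : unitInterval → unitInterval → ℝ) (hm : Measurable (Function.uncurry X))
    (hsymm : ∀ x y, X x y = X y x) (M : ℝ) (h0 : ∀ x y, 0 ≤ X x y) (hM : ∀ x y, X x y ≤ M)
    {a b : ℕ} (hb : 1 ≤ b) (hab : b ≤ a) :
    (1 / (a : ℝ)) * ((∫ x, ((∫ y, X x y ^ b) ^ (1 / (b : ℝ))) ^ a) - 1) ≤
      (1 / 2) * (((∫ x, ∫ y, X x y ^ a) - 1) / a + ((∫ x, ∫ y, X x y ^ b) - 1) / b)
      + (((a : ℝ) - b) / (2 * a * b)) * (∫ x, ∫ y, max (X x y ^ a - 1) 0) ^ 2
      + (((a : ℝ) - b) / 2) * ∫ x, ∫ y, (max (1 - X x y) 0) ^ 2 := by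
  have hX : Bd2 X := ⟨hm, M, fun x y => by rw [abs_of_nonneg (h0 x y)]; exact hM x y⟩
  have ha : 1 ≤ a := hb.trans hab
  have hbR : (0 : ℝ) < b := by exact_mod_cast hb
  have haR : (0 : ℝ) < a := by exact_mod_cast ha
  have habR : (0 : ℝ) ≤ (a : ℝ) - b := by
    have : (b : ℝ) ≤ a := by exact_mod_cast hab
    linarith
  set H : unitInterval → ℝ := fun x => ∫ y, X x y ^ b with hHdef
  have hH : Bd1 H := (hX.pow b).integral
  have hH0 : ∀ x, 0 ≤ H x := fun x => integral_nonneg (fun y => pow_nonneg (h0 x y) b)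
  set G : unitInterval → ℝ := fun x => (∫ y, X x y ^ b) ^ (1 / (b : ℝ)) with hGdef
  have hGH : ∀ x, G x = H x ^ (1 / (b : ℝ)) := fun x => rfl
  have hG0 : ∀ x, 0 ≤ G x := fun x => Real.rpow_nonneg (hH0 x) _
  have hG : Bd1 G := by
    obtain ⟨hm', K, hK⟩ := hH
    refine ⟨hm'.pow_const _, K ^ (1 / (b : ℝ)), fun x => ?_⟩
    rw [abs_of_nonneg (hG0 x), hGH]
    exact Real.rpow_le_rpow (hH0 x) ((le_abs_self _).trans (hK x)) (by positivity)
  have hGb : ∀ x, G x ^ b = H x := by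
    intro x
    rw [hGH, ← Real.rpow_natCast, ← Real.rpow_mul (hH0 x), one_div_mul_cancel hbR.ne',
      Real.rpow_one]
  set T : unitInterval → ℝ := fun x => max (G x) 1 with hTdef
  have hT : Bd1 T := hG.mx (Bd1.const 1)
  have hT1 : ∀ x, 1 ≤ T x := fun x => le_max_right _ _
  have hT0 : ∀ x, 0 ≤ T x := fun x => zero_le_one.trans (hT1 x)
  -- (P)
  have hP : ∀ x y, (X x y ^ b * T x ^ (a - b) + X x y ^ b * T y ^ (a - b)) - X x y ^ b ≤
      (b / a : ℝ) * X x y ^ a + (((a : ℝ) - b) / a) * (T x ^ a * T y ^ a) := by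
    intro x y
    have h1 := amgm_pow (h0 x y) (mul_nonneg (hT0 x) (hT0 y)) hb hab
    have hU : 1 ≤ T x ^ (a - b) := one_le_pow₀ (hT1 x)
    have hU' : 1 ≤ T y ^ (a - b) := one_le_pow₀ (hT1 y)
    have h2 : T x ^ (a - b) + T y ^ (a - b) - 1 ≤ (T x * T y) ^ (a - b) := by
      rw [mul_pow]
      nlinarith
    have h3 := mul_le_mul_of_nonneg_left h2 (pow_nonneg (h0 x y) b)
    calc (X x y ^ b * T x ^ (a - b) + X x y ^ b * T y ^ (a - b)) - X x y ^ b =
        X x y ^ b * (T x ^ (a - b) + T y ^ (a - b) - 1) := by ring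
      _ ≤ X x y ^ b * (T x * T y) ^ (a - b) := h3
      _ ≤ _ := h1
      _ = _ := by rw [mul_pow]; field_simp
  have b1 : Bd2 (fun x y => X x y ^ b * T x ^ (a - b)) := (hX.pow b).mul (hT.pow (a - b)).fst
  have b2 : Bd2 (fun x y => X x y ^ b * T y ^ (a - b)) := (hX.pow b).mul (hT.pow (a - b)).snd
  have b3 : Bd2 (fun x y => X x y ^ b) := hX.pow b
  have b4 : Bd2 (fun x y => (b / a : ℝ) * X x y ^ a) := (Bd2.const _).mul (hX.pow a)
  have b5 : Bd2 (fun x y => (((a : ℝ) - b) / a) * (T x ^ a * T y ^ a)) :=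
    (Bd2.const _).mul ((hT.pow a).fst.mul (hT.pow a).snd)
  have hPI := Bd2.mono ((b1.add b2).sub b3) (b4.add b5) hP
  rw [Bd2.int_sub (b1.add b2) b3, Bd2.int_add b1 b2, Bd2.int_add b4 b5, int_cmul, int_cmul] at hPI
  set A : ℝ := ∫ x, T x ^ (a - b) * H x with hA
  have e1 : ∫ x, ∫ y, X x y ^ b * T x ^ (a - b) = A := by
    rw [hA]
    congr 1
    funext x
    rw [integral_mul_const, mul_comm]
  have e2 : ∫ x, ∫ y, X x y ^ b * T y ^ (a - b) = A := by
    rw [b2.swap, hA]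
    congr 1
    funext y
    rw [integral_mul_const, mul_comm]
    congr 2
    funext x
    rw [hsymm]
  set S : ℝ := ∫ x, T x ^ a with hS
  have e3 : ∫ x, ∫ y, T x ^ a * T y ^ a = S * S := by
    simp_rw [integral_const_mul, integral_mul_const]
    rfl
  rw [e1, e2, e3] at hPI
  -- (Q)
  have hQ : ∀ x, (1 / (a : ℝ)) * (G x ^ a - 1) ≤
      ((1 / (b : ℝ)) * (T x ^ (a - b) * H x - 1) - (1 / (b : ℝ) - 1 / a) * (T x ^ a - 1)) +
        (((a : ℝ) - b) / 2) * (max (1 - G x) 0) ^ 2 := by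
    intro x
    rw [← hGb]
    rcases le_total 1 (G x) with h | h
    · have hTx : T x = G x := max_eq_left h
      have hmx : max (1 - G x) 0 = 0 := max_eq_right (by linarith)
      rw [hTx, hmx, ← pow_add, Nat.sub_add_cancel hab]
      apply le_of_eq
      ring
    · have hTx : T x = 1 := max_eq_right h
      have hmx : max (1 - G x) 0 = 1 - G x := max_eq_left (by linarith)
      have hs := s1 (hG0 x) h hb hab
      rw [hTx, hmx, one_pow, one_pow]
      have t1 : (1 / (a : ℝ)) * (G x ^ a - 1) = -((1 - G x ^ a) / a) := by ring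
      have t2 : ((1 / (b : ℝ)) * (1 * G x ^ b - 1) - (1 / (b : ℝ) - 1 / a) * (1 - 1)) +
        (((a : ℝ) - b) / 2) * (1 - G x) ^ 2 = -((1 - G x ^ b) / b) +
        (((a : ℝ) - b) / 2) * (1 - G x) ^ 2 := by ring
      rw [t1, t2]
      linarith
  set R : ℝ := ∫ x, (max (1 - G x) 0) ^ 2 with hR
  have c1 : Bd1 (fun x => G x ^ a - 1) := (hG.pow a).sub (Bd1.const 1)
  have c2 : Bd1 (fun x => T x ^ (a - b) * H x - 1) := ((hT.pow _).mul hH).sub (Bd1.const 1)
  have c3 : Bd1 (fun x => T x ^ a - 1) := (hT.pow a).sub (Bd1.const 1)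
  have c4 : Bd1 (fun x => (max (1 - G x) 0) ^ 2) :=
    (((Bd1.const 1).sub hG).mx (Bd1.const 0)).pow 2
  have d1 : Bd1 (fun x => (1 / (a : ℝ)) * (G x ^ a - 1)) := (Bd1.const _).mul c1
  have d2 : Bd1 (fun x => (1 / (b : ℝ)) * (T x ^ (a - b) * H x - 1)) := (Bd1.const _).mul c2
  have d3 : Bd1 (fun x => (1 / (b : ℝ) - 1 / a) * (T x ^ a - 1)) := (Bd1.const _).mul c3
  have d4 : Bd1 (fun x => (((a : ℝ) - b) / 2) * (max (1 - G x) 0) ^ 2) := (Bd1.const _).mul c4
  have hQI := integral_mono d1.int ((d2.sub d3).add d4).int hQ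
  have f1 : ∫ x, (1 / (a : ℝ)) * (G x ^ a - 1) = (1 / (a : ℝ)) * ((∫ x, G x ^ a) - 1) := by
    rw [integral_const_mul, integral_sub (hG.pow a).int (Bd1.const 1).int]
    simp
  have f2 : ∫ x, (1 / (b : ℝ)) * (T x ^ (a - b) * H x - 1) = (1 / (b : ℝ)) * (A - 1) := by
    rw [integral_const_mul, integral_sub ((hT.pow _).mul hH).int (Bd1.const 1).int]
    simp [hA]
  have f3 : ∫ x, (1 / (b : ℝ) - 1 / a) * (T x ^ a - 1) = (1 / (b : ℝ) - 1 / a) * (S - 1) := by
    rw [integral_const_mul, integral_sub (hT.pow a).int (Bd1.const 1).int]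
    simp [hS]
  have f4 : ∫ x, (((a : ℝ) - b) / 2) * (max (1 - G x) 0) ^ 2 = (((a : ℝ) - b) / 2) * R := by
    rw [integral_const_mul]
  have hQI' : (1 / (a : ℝ)) * ((∫ x, G x ^ a) - 1) ≤ ((1 / (b : ℝ)) * (A - 1) -
      (1 / (b : ℝ) - 1 / a) * (S - 1)) + (((a : ℝ) - b) / 2) * R := by
    have g1 : ∫ x, (((1 / (b : ℝ)) * (T x ^ (a - b) * H x - 1) -
        (1 / (b : ℝ) - 1 / a) * (T x ^ a - 1)) + (((a : ℝ) - b) / 2) * (max (1 - G x) 0) ^ 2) =
        (((1 / (b : ℝ)) * (A - 1) - (1 / (b : ℝ) - 1 / a) * (S - 1)) +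
          (((a : ℝ) - b) / 2) * R) := by
      rw [integral_add (d2.sub d3).int d4.int, integral_sub d2.int d3.int, f2, f3, f4]
    rw [f1] at hQI
    exact hQI.trans (le_of_eq g1)
  -- (R)
  have hRR : R ≤ ∫ x, ∫ y, (max (1 - X x y) 0) ^ 2 := by
    have hb2 : Bd2 (fun x y => max (1 - X x y) 0) := ((Bd2.const 1).sub hX).mx (Bd2.const 0)
    rw [hR]
    apply integral_mono c4.int (hb2.pow 2).integral.int
    intro x
    have hXx : Measurable (fun y => X x y) := (hX.row x).1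
    have k1 := pow_mean (fun y => X x y) hXx M (h0 x) (hM x) (le_refl 1) hb
    simp only [pow_one, Nat.cast_one, div_one, Real.rpow_one] at k1
    have k2 : (∫ y, X x y) ^ b ≤ G x ^ b := by rw [hGb]; exact k1
    have k3 : ∫ y, X x y ≤ G x := le_of_pow_le_pow_left₀ (by omega) (hG0 x) k2
    have k4 : 1 - G x ≤ ∫ y, max (1 - X x y) 0 := by
      have k5 : ∫ y, (1 - X x y) = 1 - ∫ y, X x y := by
        rw [integral_sub (Bd1.const 1).int (hX.row x).int]
        simp
      have k6 : ∫ y, (1 - X x y) ≤ ∫ y, max (1 - X x y) 0 :=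
        integral_mono ((Bd1.const 1).sub (hX.row x)).int (hb2.row x).int
          (fun y => le_max_left _ _)
      linarith
    have k7 : 0 ≤ ∫ y, max (1 - X x y) 0 := integral_nonneg (fun y => le_max_right _ _)
    have k8 : max (1 - G x) 0 ≤ ∫ y, max (1 - X x y) 0 := max_le k4 k7
    have k9 : (max (1 - G x) 0) ^ 2 ≤ (∫ y, max (1 - X x y) 0) ^ 2 :=
      pow_le_pow_left₀ (le_max_right _ _) k8 2
    have k10 := pow_mean (fun y => max (1 - X x y) 0) (hb2.row x).1 1
      (fun y => le_max_right _ _) (fun y => max_le (by have := h0 x y; linarith) zero_le_one)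
      (le_refl 1) (show 1 ≤ 2 by norm_num)
    simp only [pow_one, Nat.cast_one, div_one, Real.rpow_one] at k10
    exact k9.trans k10
  -- (S)
  have hB0 : 0 ≤ S - 1 := by
    have : ∫ x : unitInterval, (1 : ℝ) ≤ S := by
      rw [hS]
      exact integral_mono (Bd1.const 1).int (hT.pow a).int (fun x => one_le_pow₀ (hT1 x))
    simp at this
    linarith
  have hB1 : S - 1 ≤ ∫ x, ∫ y, max (X x y ^ a - 1) 0 := by
    have hb3 : Bd2 (fun x y => max (X x y ^ a - 1) 0) :=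
      ((hX.pow a).sub (Bd2.const 1)).mx (Bd2.const 0)
    have g2 : S - 1 = ∫ x, (T x ^ a - 1) := by
      rw [integral_sub (hT.pow a).int (Bd1.const 1).int]
      simp [hS]
    rw [g2]
    apply integral_mono c3.int hb3.integral.int
    intro x
    have k7 : 0 ≤ ∫ y, max (X x y ^ a - 1) 0 := integral_nonneg (fun y => le_max_right _ _)
    rcases le_total 1 (G x) with h | h
    · have hTx : T x = G x := max_eq_left h
      have k1 : G x ^ a ≤ ∫ y, X x y ^ a :=
        pow_mean (fun y => X x y) (hX.row x).1 M (h0 x) (hM x) hb hab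
      have k5 : ∫ y, (X x y ^ a - 1) = (∫ y, X x y ^ a) - 1 := by
        rw [integral_sub ((hX.pow a).row x).int (Bd1.const 1).int]
        simp
      have k6 : ∫ y, (X x y ^ a - 1) ≤ ∫ y, max (X x y ^ a - 1) 0 :=
        integral_mono (((hX.pow a).row x).sub (Bd1.const 1)).int (hb3.row x).int
          (fun y => le_max_left _ _)
      show T x ^ a - 1 ≤ _
      rw [hTx]
      linarith
    · have hTx : T x = 1 := max_eq_right h
      show T x ^ a - 1 ≤ _
      rw [hTx, one_pow, sub_self]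
      exact k7
  -- conclusion
  set EA : ℝ := ∫ x, ∫ y, X x y ^ a with hEA
  set EB : ℝ := ∫ x, ∫ y, X x y ^ b with hEB
  set P : ℝ := ∫ x, ∫ y, max (X x y ^ a - 1) 0 with hPdef
  set V : ℝ := ∫ x, ∫ y, (max (1 - X x y) 0) ^ 2 with hV
  have hsq : (S - 1) ^ 2 ≤ P ^ 2 := pow_le_pow_left₀ hB0 hB1 2
  have hV' : (((a : ℝ) - b) / 2) * R ≤ (((a : ℝ) - b) / 2) * V :=
    mul_le_mul_of_nonneg_left hRR (by linarith)
  have hP' : (((a : ℝ) - b) / (2 * a * b)) * (S - 1) ^ 2 ≤ (((a : ℝ) - b) / (2 * a * b)) * P ^ 2 :=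
    mul_le_mul_of_nonneg_left hsq (by positivity)
  have hA2 : A ≤ (1 / 2) * (EB + ((b / a : ℝ) * EA + (((a : ℝ) - b) / a) * (S * S))) := by
    linarith
  have hA3 : (1 / (b : ℝ)) * (A - 1) ≤ (1 / (b : ℝ)) *
      ((1 / 2) * (EB + ((b / a : ℝ) * EA + (((a : ℝ) - b) / a) * (S * S))) - 1) :=
    mul_le_mul_of_nonneg_left (by linarith) (by positivity)
  have hfin : (1 / (b : ℝ)) *
      ((1 / 2) * (EB + ((b / a : ℝ) * EA + (((a : ℝ) - b) / a) * (S * S))) - 1) -
      (1 / (b : ℝ) - 1 / a) * (S - 1) =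
      (1 / 2) * ((EA - 1) / a + (EB - 1) / b) +
        (((a : ℝ) - b) / (2 * a * b)) * (S - 1) ^ 2 := by
    field_simp
    ring
  linarith

end Pool.Agent.H959.UG
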