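import Mathlib
import Pool.Agent.H959.UG.Edge

/-!
MP_bbc525_pr (helper959): second inequality for one edge type (helper722).
-/

set_option autoImplicit false

namespace Pool.Agent.H959.UG

open MeasureTheory

/-! ### task C (helper722): new part -/

theorem pow_sub_one_le {G M : ℝ} (h1 : 1 ≤ G) (hM : G ≤ M) (k : ℕ) :
    G ^ k - 1 ≤ k * M ^ k * (G - 1) := by
  have hM1 : 1 ≤ M := h1.trans hM
  induction k with
  | zero => simp
  | succ k ih =>
    have h2 : 0 ≤ G - 1 := by linarith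
    have h3 : G * (G ^ k - 1) ≤ M * (k * M ^ k * (G - 1)) := by
      have h4 : 0 ≤ G ^ k - 1 := by
        have := one_le_pow₀ (n := k) h1
        linarith
      exact mul_le_mul hM ih h4 (by linarith)
    have h5 : (G - 1) ≤ M ^ (k + 1) * (G - 1) := by
      have := one_le_pow₀ (n := k + 1) hM1
      nlinarith
    push_cast
    calc G ^ (k + 1) - 1 = G * (G ^ k - 1) + (G - 1) := by ring
      _ ≤ M * (k * M ^ k * (G - 1)) + M ^ (k + 1) * (G - 1) := add_le_add h3 h5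
      _ = ((k : ℝ) + 1) * M ^ (k + 1) * (G - 1) := by ring

theorem one_sub_pow_le {G : ℝ} (h0 : 0 ≤ G) (h1 : G ≤ 1) (k : ℕ) : 1 - G ^ k ≤ k * (1 - G) := by
  induction k with
  | zero => simp
  | succ k ih =>
    have h2 : 0 ≤ 1 - G ^ k := by
      have := pow_le_one₀ (n := k) h0 h1
      linarith
    have h3 : G * (1 - G ^ k) ≤ 1 - G ^ k := by nlinarith
    push_cast
    calc 1 - G ^ (k + 1) = (1 - G) + G * (1 - G ^ k) := by ring
      _ ≤ (1 - G) + k * (1 - G) := by linarith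
      _ = ((k : ℝ) + 1) * (1 - G) := by ring

/-- the basic facts on the `b`-norms of the rows -/
theorem rows (X : unitInterval → unitInterval → ℝ) (hm : Measurable (Function.uncurry X))
    (M : ℝ) (h0 : ∀ x y, 0 ≤ X x y) (hM : ∀ x y, X x y ≤ M) {b : ℕ} (hb : 1 ≤ b)
    (G : unitInterval → ℝ) (hG : G = fun x => (∫ y, X x y ^ b) ^ (1 / (b : ℝ))) :
    Bd1 G ∧ (∀ x, 0 ≤ G x) ∧ (∀ x, G x ^ b = ∫ y, X x y ^ b) ∧ (∀ x, G x ≤ M) ∧
      (∀ x, 1 - G x ≤ ∫ y, max (1 - X x y) 0) := by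
  have hX : Bd2 X := ⟨hm, M, fun x y => by rw [abs_of_nonneg (h0 x y)]; exact hM x y⟩
  have hbR : (0 : ℝ) < b := by exact_mod_cast hb
  have hM0 : 0 ≤ M := (h0 0 0).trans (hM 0 0)
  have hH : Bd1 (fun x => ∫ y, X x y ^ b) := (hX.pow b).integral
  have hH0 : ∀ x, 0 ≤ ∫ y, X x y ^ b := fun x => integral_nonneg (fun y => pow_nonneg (h0 x y) b)
  have hGx : ∀ x, G x = (∫ y, X x y ^ b) ^ (1 / (b : ℝ)) := fun x => by rw [hG]
  have hG0 : ∀ x, 0 ≤ G x := fun x => by rw [hGx]; exact Real.rpow_nonneg (hH0 x) _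
  have hGb : ∀ x, G x ^ b = ∫ y, X x y ^ b := by
    intro x
    rw [hGx, ← Real.rpow_natCast, ← Real.rpow_mul (hH0 x), one_div_mul_cancel hbR.ne',
      Real.rpow_one]
  have hGM : ∀ x, G x ≤ M := by
    intro x
    have h1 : G x ^ b ≤ M ^ b := by
      rw [hGb]
      have h2 : ∫ y, X x y ^ b ≤ ∫ _ : unitInterval, M ^ b :=
        integral_mono ((hX.pow b).row x).int (Bd1.const _).int
          (fun y => pow_le_pow_left₀ (h0 x y) (hM x y) b)
      simpa using h2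
    exact le_of_pow_le_pow_left₀ (by omega) hM0 h1
  have hGBd : Bd1 G := by
    refine ⟨?_, M, fun x => by rw [abs_of_nonneg (hG0 x)]; exact hGM x⟩
    rw [hG]
    exact hH.1.pow_const _
  refine ⟨hGBd, hG0, hGb, hGM, fun x => ?_⟩
  have hb2 : Bd2 (fun x y => max (1 - X x y) 0) := ((Bd2.const 1).sub hX).mx (Bd2.const 0)
  have hXx : Measurable (fun y => X x y) := (hX.row x).1
  have k1 := pow_mean (fun y => X x y) hXx M (h0 x) (hM x) (le_refl 1) hb
  simp only [pow_one, Nat.cast_one, div_one, Real.rpow_one] at k1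
  have k2 : (∫ y, X x y) ^ b ≤ G x ^ b := by rw [hGb]; exact k1
  have k3 : ∫ y, X x y ≤ G x := le_of_pow_le_pow_left₀ (by omega) (hG0 x) k2
  have k5 : ∫ y, (1 - X x y) = 1 - ∫ y, X x y := by
    rw [integral_sub (Bd1.const 1).int (hX.row x).int]
    simp
  have k6 : ∫ y, (1 - X x y) ≤ ∫ y, max (1 - X x y) 0 :=
    integral_mono ((Bd1.const 1).sub (hX.row x)).int (hb2.row x).int
      (fun y => le_max_left _ _)
  linarith

theorem cross {u v : ℝ} : u + v - 1 ≤ u * v + (max (u - 1) 0 * max (1 - v) 0 +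
    max (1 - u) 0 * max (v - 1) 0) := by
  rcases le_total u 1 with hu | hu <;> rcases le_total v 1 with hv | hv
  · rw [max_eq_right (by linarith : u - 1 ≤ 0), max_eq_right (by linarith : v - 1 ≤ 0)]
    nlinarith
  · rw [max_eq_right (by linarith : u - 1 ≤ 0), max_eq_left (by linarith : 0 ≤ 1 - u),
      max_eq_left (by linarith : 0 ≤ v - 1)]
    nlinarith
  · rw [max_eq_left (by linarith : 0 ≤ u - 1), max_eq_left (by linarith : 0 ≤ 1 - v),
      max_eq_right (by linarith : v - 1 ≤ 0)]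
    nlinarith
  · rw [max_eq_right (by linarith : 1 - v ≤ 0), max_eq_right (by linarith : 1 - u ≤ 0)]
    nlinarith

theorem edge_ineq2 (X : unitInterval → unitInterval → ℝ) (hm : Measurable (Function.uncurry X))
    (hsymm : ∀ x y, X x y = X y x) (M : ℝ) (hM1 : 1 ≤ M) (h0 : ∀ x y, 0 ≤ X x y)
    (hM : ∀ x y, X x y ≤ M) {a b : ℕ} (hb : 1 ≤ b) (hab : b ≤ a) :
    (1 / (a : ℝ)) * ((∫ x, ((∫ y, X x y ^ b) ^ (1 / (b : ℝ))) ^ a) - 1) ≤
      (1 / 2) * (((∫ x, ∫ y, X x y ^ a) - 1) / a + ((∫ x, ∫ y, X x y ^ b) - 1) / b)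
      + (((a : ℝ) - b) / (2 * a * b)) *
        ((∫ x, ((∫ y, X x y ^ b) ^ (1 / (b : ℝ))) ^ a) - 1) ^ 2
      + (((a : ℝ) - b) ^ 2 * M ^ (a + b) / b) *
        ((∫ x, ∫ y, max (X x y - 1) 0) * ∫ x, ∫ y, max (1 - X x y) 0) := by
  have hX : Bd2 X := ⟨hm, M, fun x y => by rw [abs_of_nonneg (h0 x y)]; exact hM x y⟩
  have ha : 1 ≤ a := hb.trans hab
  have hbR : (0 : ℝ) < b := by exact_mod_cast hb
  have haR : (0 : ℝ) < a := by exact_mod_cast ha
  have habR : (0 : ℝ) ≤ (a : ℝ) - b := by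
    have : (b : ℝ) ≤ a := by exact_mod_cast hab
    linarith
  have hM0 : 0 ≤ M := by linarith
  obtain ⟨G, hGdef⟩ : ∃ G : unitInterval → ℝ, G = fun x => (∫ y, X x y ^ b) ^ (1 / (b : ℝ)) :=
    ⟨_, rfl⟩
  obtain ⟨hG, hG0, hGb, hGM, hG1⟩ := rows X hm M h0 hM hb G hGdef
  have eZ : ∫ x, ((∫ y, X x y ^ b) ^ (1 / (b : ℝ))) ^ a = ∫ x, G x ^ a := by rw [hGdef]
  rw [eZ]
  obtain ⟨k, hk⟩ : ∃ k : ℕ, a = b + k := ⟨a - b, by omega⟩
  have hkR : (k : ℝ) = (a : ℝ) - b := by rw [hk]; push_cast; ring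
  have hk' : a - b = k := by omega
  -- the functions
  have bP : Bd2 (fun x y => max (X x y - 1) 0) := (hX.sub (Bd2.const 1)).mx (Bd2.const 0)
  have bA : Bd2 (fun x y => max (1 - X x y) 0) := ((Bd2.const 1).sub hX).mx (Bd2.const 0)
  have hU : Bd1 (fun x => G x ^ k) := hG.pow k
  have hp : Bd1 (fun x => max (G x ^ k - 1) 0) := (hU.sub (Bd1.const 1)).mx (Bd1.const 0)
  have hq : Bd1 (fun x => max (1 - G x ^ k) 0) := ((Bd1.const 1).sub hU).mx (Bd1.const 0)
  -- (P)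
  have hPt : ∀ x y, (X x y ^ b * G x ^ k + X x y ^ b * G y ^ k) - X x y ^ b ≤
      ((b / a : ℝ) * X x y ^ a + (((a : ℝ) - b) / a) * (G x ^ a * G y ^ a)) +
        (M ^ b * (max (G x ^ k - 1) 0 * max (1 - G y ^ k) 0) +
          M ^ b * (max (1 - G x ^ k) 0 * max (G y ^ k - 1) 0)) := by
    intro x y
    have h1 := amgm_pow (h0 x y) (mul_nonneg (hG0 x) (hG0 y)) hb hab
    rw [hk', mul_pow (G x) (G y) k, mul_pow (G x) (G y) a] at h1
    have h2 := cross (u := G x ^ k) (v := G y ^ k)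
    have h3 := mul_le_mul_of_nonneg_left h2 (pow_nonneg (h0 x y) b)
    have h4 : 0 ≤ max (G x ^ k - 1) 0 * max (1 - G y ^ k) 0 +
        max (1 - G x ^ k) 0 * max (G y ^ k - 1) 0 :=
      add_nonneg (mul_nonneg (le_max_right _ _) (le_max_right _ _))
        (mul_nonneg (le_max_right _ _) (le_max_right _ _))
    have h5 := mul_le_mul_of_nonneg_right (pow_le_pow_left₀ (h0 x y) (hM x y) b) h4
    have h6 : ((b : ℝ) * X x y ^ a + ((a : ℝ) - b) * (G x ^ a * G y ^ a)) / a =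
        (b / a : ℝ) * X x y ^ a + (((a : ℝ) - b) / a) * (G x ^ a * G y ^ a) := by
      field_simp
    rw [h6] at h1
    calc (X x y ^ b * G x ^ k + X x y ^ b * G y ^ k) - X x y ^ b =
        X x y ^ b * (G x ^ k + G y ^ k - 1) := by ring
      _ ≤ X x y ^ b * (G x ^ k * G y ^ k + (max (G x ^ k - 1) 0 * max (1 - G y ^ k) 0 +
            max (1 - G x ^ k) 0 * max (G y ^ k - 1) 0)) := h3
      _ = X x y ^ b * (G x ^ k * G y ^ k) + X x y ^ b * (max (G x ^ k - 1) 0 *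
            max (1 - G y ^ k) 0 + max (1 - G x ^ k) 0 * max (G y ^ k - 1) 0) := by ring
      _ ≤ _ + M ^ b * (max (G x ^ k - 1) 0 *
            max (1 - G y ^ k) 0 + max (1 - G x ^ k) 0 * max (G y ^ k - 1) 0) := add_le_add h1 h5
      _ = _ := by ring
  have b1 : Bd2 (fun x y => X x y ^ b * G x ^ k) := (hX.pow b).mul hU.fst
  have b2 : Bd2 (fun x y => X x y ^ b * G y ^ k) := (hX.pow b).mul hU.snd
  have b3 : Bd2 (fun x y => X x y ^ b) := hX.pow b
  have b4 : Bd2 (fun x y => (b / a : ℝ) * X x y ^ a) := (Bd2.const _).mul (hX.pow a)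
  have b5 : Bd2 (fun x y => (((a : ℝ) - b) / a) * (G x ^ a * G y ^ a)) :=
    (Bd2.const _).mul ((hG.pow a).fst.mul (hG.pow a).snd)
  have b6 : Bd2 (fun x y => M ^ b * (max (G x ^ k - 1) 0 * max (1 - G y ^ k) 0)) :=
    (Bd2.const _).mul (hp.fst.mul hq.snd)
  have b7 : Bd2 (fun x y => M ^ b * (max (1 - G x ^ k) 0 * max (G y ^ k - 1) 0)) :=
    (Bd2.const _).mul (hq.fst.mul hp.snd)
  have hPI := Bd2.mono ((b1.add b2).sub b3) ((b4.add b5).add (b6.add b7)) hPt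
  rw [Bd2.int_sub (b1.add b2) b3, Bd2.int_add b1 b2, Bd2.int_add (b4.add b5) (b6.add b7),
    Bd2.int_add b4 b5, Bd2.int_add b6 b7, int_cmul, int_cmul, int_cmul, int_cmul] at hPI
  obtain ⟨Z, hZ⟩ : ∃ Z : ℝ, Z = ∫ x, G x ^ a := ⟨_, rfl⟩
  obtain ⟨p, hpd⟩ : ∃ p : ℝ, p = ∫ x, max (G x ^ k - 1) 0 := ⟨_, rfl⟩
  obtain ⟨q, hqd⟩ : ∃ q : ℝ, q = ∫ x, max (1 - G x ^ k) 0 := ⟨_, rfl⟩
  have e1 : ∫ x, ∫ y, X x y ^ b * G x ^ k = Z := by
    rw [hZ]
    congr 1
    funext x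
    rw [integral_mul_const, ← hGb, hk, pow_add]
  have e2 : ∫ x, ∫ y, X x y ^ b * G y ^ k = Z := by
    rw [b2.swap, hZ]
    congr 1
    funext y
    rw [integral_mul_const]
    have e0 : ∫ x, X x y ^ b = ∫ x, X y x ^ b := by
      congr 1
      funext x
      rw [hsymm]
    rw [e0, ← hGb, hk, pow_add]
  have e3 : ∫ x, ∫ y, G x ^ a * G y ^ a = Z * Z := by
    simp_rw [integral_const_mul, integral_mul_const]
    rw [hZ]
  have e4 : ∫ x, ∫ y, max (G x ^ k - 1) 0 * max (1 - G y ^ k) 0 = p * q := by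
    simp_rw [integral_const_mul, integral_mul_const]
    rw [hpd, hqd]
  have e5 : ∫ x, ∫ y, max (1 - G x ^ k) 0 * max (G y ^ k - 1) 0 = q * p := by
    simp_rw [integral_const_mul, integral_mul_const]
    rw [hpd, hqd]
  rw [e1, e2, e3, e4, e5] at hPI
  obtain ⟨P, hPd⟩ : ∃ P : ℝ, P = ∫ x, ∫ y, max (X x y - 1) 0 := ⟨_, rfl⟩
  obtain ⟨A, hAd⟩ : ∃ A : ℝ, A = ∫ x, ∫ y, max (1 - X x y) 0 := ⟨_, rfl⟩
  -- (R1)
  have hR1 : p ≤ ((a : ℝ) - b) * M ^ a * P := by
    have h1 : ∀ x, max (G x ^ k - 1) 0 ≤ (k * M ^ a) * ∫ y, max (X x y - 1) 0 := by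
      intro x
      have hI : 0 ≤ ∫ y, max (X x y - 1) 0 := integral_nonneg (fun y => le_max_right _ _)
      have hkM : (0 : ℝ) ≤ k * M ^ a := by positivity
      apply max_le _ (mul_nonneg hkM hI)
      rcases le_total (G x) 1 with h | h
      · have := pow_le_one₀ (n := k) (hG0 x) h
        have h2 := mul_nonneg hkM hI
        linarith
      · have h2 := pow_sub_one_le h (hGM x) k
        have h3 : (1 : ℝ) + b * (G x - 1) ≤ (1 + (G x - 1)) ^ b :=
          one_add_mul_le_pow (by linarith) b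
        rw [add_sub_cancel, hGb] at h3
        have h4 : (∫ y, X x y ^ b) - 1 ≤ (b * M ^ b) * ∫ y, max (X x y - 1) 0 := by
          have h5 : ∫ y, (X x y ^ b - 1) = (∫ y, X x y ^ b) - 1 := by
            rw [integral_sub ((hX.pow b).row x).int (Bd1.const 1).int]
            simp
          rw [← h5, ← integral_const_mul]
          apply integral_mono (((hX.pow b).row x).sub (Bd1.const 1)).int
            ((Bd1.const _).mul (bP.row x)).int
          intro y
          show X x y ^ b - 1 ≤ (b * M ^ b) * max (X x y - 1) 0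
          have hbM : (0 : ℝ) ≤ b * M ^ b := by positivity
          rcases le_total (X x y) 1 with h6 | h6
          · have := pow_le_one₀ (n := b) (h0 x y) h6
            have h7 := mul_nonneg hbM (le_max_right (X x y - 1) 0)
            linarith
          · rw [max_eq_left (by linarith)]
            exact pow_sub_one_le h6 (hM x y) b
        have h5 : G x - 1 ≤ M ^ b * ∫ y, max (X x y - 1) 0 := by
          have h6 : (b : ℝ) * (G x - 1) ≤ b * (M ^ b * ∫ y, max (X x y - 1) 0) := by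
            rw [← mul_assoc]
            linarith
          exact le_of_mul_le_mul_left h6 hbR
        have hkM2 : (0 : ℝ) ≤ k * M ^ k := by positivity
        calc G x ^ k - 1 ≤ k * M ^ k * (G x - 1) := h2
          _ ≤ k * M ^ k * (M ^ b * ∫ y, max (X x y - 1) 0) := mul_le_mul_of_nonneg_left h5 hkM2
          _ = (k * M ^ a) * ∫ y, max (X x y - 1) 0 := by rw [hk, pow_add]; ring
    rw [hpd, hPd, ← hkR, ← integral_const_mul]
    exact integral_mono hp.int ((Bd1.const _).mul bP.integral).int h1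
  -- (R2)
  have hR2 : q ≤ ((a : ℝ) - b) * A := by
    have h1 : ∀ x, max (1 - G x ^ k) 0 ≤ (k : ℝ) * ∫ y, max (1 - X x y) 0 := by
      intro x
      have hI : 0 ≤ ∫ y, max (1 - X x y) 0 := integral_nonneg (fun y => le_max_right _ _)
      have hk0 : (0 : ℝ) ≤ k := Nat.cast_nonneg k
      apply max_le _ (mul_nonneg hk0 hI)
      rcases le_total (G x) 1 with h | h
      · have h2 := one_sub_pow_le (hG0 x) h k
        exact h2.trans (mul_le_mul_of_nonneg_left (hG1 x) hk0)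
      · have := one_le_pow₀ (n := k) h
        have h2 := mul_nonneg hk0 hI
        linarith
    rw [hqd, hAd, ← hkR, ← integral_const_mul]
    exact integral_mono hq.int ((Bd1.const _).mul bA.integral).int h1
  have hp0 : 0 ≤ p := by rw [hpd]; exact integral_nonneg (fun x => le_max_right _ _)
  have hq0 : 0 ≤ q := by rw [hqd]; exact integral_nonneg (fun x => le_max_right _ _)
  have hP0 : 0 ≤ P := by
    rw [hPd]; exact integral_nonneg (fun x => integral_nonneg fun y => le_max_right _ _)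
  have hpq : p * q ≤ (((a : ℝ) - b) * M ^ a * P) * (((a : ℝ) - b) * A) :=
    mul_le_mul hR1 hR2 hq0 (by positivity)
  have hMb : (0 : ℝ) ≤ M ^ b / b := by positivity
  have hpq2 : M ^ b / b * (p * q) ≤ (((a : ℝ) - b) ^ 2 * M ^ (a + b) / b) * (P * A) := by
    calc M ^ b / b * (p * q) ≤ M ^ b / b * ((((a : ℝ) - b) * M ^ a * P) * (((a : ℝ) - b) * A)) :=
          mul_le_mul_of_nonneg_left hpq hMb
      _ = _ := by rw [pow_add]; ring
  obtain ⟨EA, hEA⟩ : ∃ EA : ℝ, EA = ∫ x, ∫ y, X x y ^ a := ⟨_, rfl⟩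
  obtain ⟨EB, hEB⟩ : ∃ EB : ℝ, EB = ∫ x, ∫ y, X x y ^ b := ⟨_, rfl⟩
  rw [← hEA, ← hEB] at hPI
  rw [← hPd, ← hAd, ← hZ, ← hEA, ← hEB]
  have hfin : (1 / (a : ℝ)) * (Z - 1) - ((1 / 2) * ((EA - 1) / a + (EB - 1) / b) +
      (((a : ℝ) - b) / (2 * a * b)) * (Z - 1) ^ 2 + M ^ b / b * (p * q)) =
      (1 / (2 * (b : ℝ))) * ((Z + Z - EB) - ((b / a : ℝ) * EA + (((a : ℝ) - b) / a) * (Z * Z) +
        (M ^ b * (p * q) + M ^ b * (q * p)))) := by
    field_simp
    ring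
  have h2b : (0 : ℝ) ≤ 1 / (2 * (b : ℝ)) := by positivity
  have hle : (1 / (2 * (b : ℝ))) * ((Z + Z - EB) - ((b / a : ℝ) * EA +
      (((a : ℝ) - b) / a) * (Z * Z) + (M ^ b * (p * q) + M ^ b * (q * p)))) ≤ 0 :=
    mul_nonpos_of_nonneg_of_nonpos h2b (by linarith)
  linarith

theorem Z_lower (X : unitInterval → unitInterval → ℝ) (hm : Measurable (Function.uncurry X))
    (M : ℝ) (h0 : ∀ x y, 0 ≤ X x y)
    (hM : ∀ x y, X x y ≤ M) {a b : ℕ} (hb : 1 ≤ b) :
    -((a : ℝ) * ∫ x, ∫ y, max (1 - X x y) 0) ≤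
      (∫ x, ((∫ y, X x y ^ b) ^ (1 / (b : ℝ))) ^ a) - 1 := by
  have hX : Bd2 X := ⟨hm, M, fun x y => by rw [abs_of_nonneg (h0 x y)]; exact hM x y⟩
  obtain ⟨G, hGdef⟩ : ∃ G : unitInterval → ℝ, G = fun x => (∫ y, X x y ^ b) ^ (1 / (b : ℝ)) :=
    ⟨_, rfl⟩
  obtain ⟨hG, hG0, hGb, hGM, hG1⟩ := rows X hm M h0 hM hb G hGdef
  have eZ : ∫ x, ((∫ y, X x y ^ b) ^ (1 / (b : ℝ))) ^ a = ∫ x, G x ^ a := by rw [hGdef]
  rw [eZ]
  have bA : Bd2 (fun x y => max (1 - X x y) 0) := ((Bd2.const 1).sub hX).mx (Bd2.const 0)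
  have ha0 : (0 : ℝ) ≤ a := Nat.cast_nonneg a
  have h1 : ∀ x, 1 - G x ^ a ≤ (a : ℝ) * ∫ y, max (1 - X x y) 0 := by
    intro x
    have hI : 0 ≤ ∫ y, max (1 - X x y) 0 := integral_nonneg (fun y => le_max_right _ _)
    rcases le_total (G x) 1 with h | h
    · exact (one_sub_pow_le (hG0 x) h a).trans (mul_le_mul_of_nonneg_left (hG1 x) ha0)
    · have := one_le_pow₀ (n := a) h
      have h2 := mul_nonneg ha0 hI
      linarith
  have h2 := integral_mono ((Bd1.const 1).sub (hG.pow a)).int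
    ((Bd1.const (a : ℝ)).mul bA.integral).int h1
  rw [integral_sub (Bd1.const 1).int (hG.pow a).int, integral_const_mul] at h2
  simp only [integral_const, probReal_univ, smul_eq_mul, mul_one] at h2
  linarith

theorem Z_upper (X : unitInterval → unitInterval → ℝ) (hm : Measurable (Function.uncurry X))
    (M : ℝ) (hM1 : 1 ≤ M) (h0 : ∀ x y, 0 ≤ X x y)
    (hM : ∀ x y, X x y ≤ M) {a b : ℕ} (hb : 1 ≤ b) (hab : b ≤ a) :
    (∫ x, ((∫ y, X x y ^ b) ^ (1 / (b : ℝ))) ^ a) - 1 ≤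
      (a : ℝ) * M ^ a * (∫ x, ∫ y, max (X x y - 1) 0) - ∫ x, ∫ y, max (1 - X x y) 0 := by
  have hX : Bd2 X := ⟨hm, M, fun x y => by rw [abs_of_nonneg (h0 x y)]; exact hM x y⟩
  have ha : 1 ≤ a := hb.trans hab
  obtain ⟨G, hGdef⟩ : ∃ G : unitInterval → ℝ, G = fun x => (∫ y, X x y ^ b) ^ (1 / (b : ℝ)) :=
    ⟨_, rfl⟩
  obtain ⟨hG, hG0, hGb, hGM, hG1⟩ := rows X hm M h0 hM hb G hGdef
  have eZ : ∫ x, ((∫ y, X x y ^ b) ^ (1 / (b : ℝ))) ^ a = ∫ x, G x ^ a := by rw [hGdef]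
  rw [eZ]
  have bP : Bd2 (fun x y => max (X x y - 1) 0) := (hX.sub (Bd2.const 1)).mx (Bd2.const 0)
  have bA : Bd2 (fun x y => max (1 - X x y) 0) := ((Bd2.const 1).sub hX).mx (Bd2.const 0)
  have h1 : ∫ x, G x ^ a ≤ ∫ x, ∫ y, X x y ^ a := by
    apply integral_mono (hG.pow a).int (hX.pow a).integral.int
    intro x
    show G x ^ a ≤ ∫ y, X x y ^ a
    have := pow_mean (fun y => X x y) (hX.row x).1 M (h0 x) (hM x) hb hab
    rw [hGdef]
    exact this
  have h2 : ∀ x y, X x y ^ a - 1 ≤ (a * M ^ a) * max (X x y - 1) 0 - max (1 - X x y) 0 := by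
    intro x y
    rcases le_total (X x y) 1 with h | h
    · rw [max_eq_right (by linarith : X x y - 1 ≤ 0), max_eq_left (by linarith : 0 ≤ 1 - X x y)]
      have h3 : X x y ^ a ≤ X x y ^ 1 := pow_le_pow_of_le_one (h0 x y) h ha
      rw [pow_one] at h3
      linarith
    · rw [max_eq_left (by linarith : 0 ≤ X x y - 1), max_eq_right (by linarith : 1 - X x y ≤ 0)]
      have h3 := pow_sub_one_le h (hM x y) a
      linarith
  have b4 : Bd2 (fun x y => (a * M ^ a) * max (X x y - 1) 0) := (Bd2.const _).mul bP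
  have h3 := Bd2.mono ((hX.pow a).sub (Bd2.const 1)) (b4.sub bA) h2
  rw [Bd2.int_sub (hX.pow a) (Bd2.const 1), Bd2.int_sub b4 bA, int_cmul] at h3
  simp only [integral_const, probReal_univ, smul_eq_mul, mul_one] at h3
  linarith

end Pool.Agent.H959.UG
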