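import Mathlib
import Pool.Agent.H959.UT.Two
import Pool.Agent.H959.UT.Bound

/-!
MP_bbc525_pr (helper959): the mixed norm inequality for homomorphism densities: the coordinates of
the vertices are integrated in the order of their degrees.
-/

set_option autoImplicit false
set_option linter.unusedSectionVars false

namespace Pool.Agent.H959.UG

open MeasureTheory Finset Function
open scoped ENNReal
open Pool.Agent.H767R5.UT Pool.Agent.H959.UT

variable {V : Type} [Fintype V] [DecidableEq V]

/-- the vertices treated in the first `k` stages -/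
noncomputable def Lv (H : SimpleGraph V) (k : ℕ) : Finset V :=
  Finset.univ.filter (fun i => k ≠ 0 ∧ (inc H i).card ≤ k)

/-- the vertices treated in the stage `k + 1` -/
noncomputable def Cl (H : SimpleGraph V) (k : ℕ) : Finset V := Lv H (k + 1) \ Lv H k

theorem mem_Lv (H : SimpleGraph V) (k : ℕ) (i : V) : i ∈ Lv H k ↔ k ≠ 0 ∧ (inc H i).card ≤ k := by
  unfold Lv; simp

theorem mem_Cl_le {H : SimpleGraph V} {k : ℕ} {i : V} (h : i ∈ Cl H k) :
    (inc H i).card ≤ k + 1 := by
  unfold Cl at h
  rw [Finset.mem_sdiff, mem_Lv] at h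
  exact h.1.2

theorem not_mem_Cl {H : SimpleGraph V} {k : ℕ} {i : V} (hi : 1 ≤ (inc H i).card)
    (h : (inc H i).card ≠ k + 1) : i ∉ Cl H k := by
  unfold Cl
  rw [Finset.mem_sdiff, mem_Lv, mem_Lv]
  rintro ⟨⟨_, h1⟩, h2⟩
  apply h2
  omega

theorem mem_Cl {H : SimpleGraph V} {k : ℕ} {i : V} (h : (inc H i).card = k + 1) : i ∈ Cl H k := by
  unfold Cl
  rw [Finset.mem_sdiff, mem_Lv, mem_Lv]
  omega

/-- The factor of the edge `e` after `k` stages. -/
noncomputable def F (H : SimpleGraph V) (W : Graphon) : ℕ → Sym2 V → (V → unitInterval) → ℝ≥0∞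
  | 0 => ef W
  | k + 1 => fun e x => ((∫⋯∫⁻_(Cl H k), (fun y => F H W k e y ^ ((k + 1 : ℕ) : ℝ))
      ∂(fun _ => (volume : Measure unitInterval))) x) ^ (1 / ((k + 1 : ℕ) : ℝ))

theorem F_meas (H : SimpleGraph V) (W : Graphon) (k : ℕ) (e : Sym2 V) : Measurable (F H W k e) := by
  induction k with
  | zero => exact ef_measurable W e
  | succ k ih => exact ((ih.pow_const _).lmarginal _).pow_const _

theorem F_indep (H : SimpleGraph V) (W : Graphon) (k : ℕ) (e : Sym2 V) (i : V) (hi : i ∉ e) :
    Indep (F H W k e) i := by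
  induction k with
  | zero => exact ef_indep W e i hi
  | succ k ih =>
    exact indep_rpow (indep_lmarginal volume ((F_meas H W k e).pow_const _) (indep_rpow ih _)) _

theorem stages (H : SimpleGraph V) (W : Graphon) (k : ℕ) (x : V → unitInterval) :
    (∫⋯∫⁻_(Lv H k), (fun y => ∏ e ∈ edges H, ef W e y)
      ∂(fun _ => (volume : Measure unitInterval))) x ≤ ∏ e ∈ edges H, F H W k e x := by
  induction k generalizing x with
  | zero =>
    have h : Lv H 0 = ∅ := by
      ext i; rw [mem_Lv]; simp
    rw [h, lmarginal_empty]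
    exact le_rfl
  | succ k ih =>
    have hsub : Lv H k ⊆ Lv H (k + 1) := by
      intro i hi
      rw [mem_Lv] at hi ⊢
      omega
    have hu : Lv H (k + 1) = Cl H k ∪ Lv H k := by
      unfold Cl
      exact (Finset.sdiff_union_of_subset hsub).symm
    have hm : Measurable (fun y : V → unitInterval => ∏ e ∈ edges H, ef W e y) :=
      Finset.measurable_prod _ (fun e _ => ef_measurable W e)
    rw [hu, lmarginal_union _ _ hm (by unfold Cl; exact Finset.sdiff_disjoint)]
    have s1 : (∫⋯∫⁻_(Lv H k), (fun y => ∏ e ∈ edges H, ef W e y)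
        ∂(fun _ => (volume : Measure unitInterval))) ≤ fun y => ∏ e ∈ edges H, F H W k e y :=
      fun y => ih y
    refine (lmarginal_mono s1 x).trans ?_
    exact stage volume (edges H) (fun e => F H W k e) (fun e _ => F_meas H W k e) (k + 1)
      (Nat.succ_pos k) (fun i => inc H i) (Cl H k) (fun i _ => Finset.filter_subset _ _)
      (fun i hi => mem_Cl_le hi) (fun i _ e he hne =>
        F_indep H W k e i (fun hi => hne (Finset.mem_filter.mpr ⟨he, hi⟩))) x

theorem rp_cancel (x : ℝ≥0∞) {k : ℕ} (hk : 0 < k) : (x ^ (k : ℝ)) ^ (1 / (k : ℝ)) = x := by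
  have hk' : (0 : ℝ) < k := by exact_mod_cast hk
  rw [← ENNReal.rpow_mul, mul_one_div_cancel hk'.ne', ENNReal.rpow_one]

theorem rp_cancel' (x : ℝ≥0∞) {k : ℕ} (hk : 0 < k) : (x ^ (1 / (k : ℝ))) ^ (k : ℝ) = x := by
  have hk' : (0 : ℝ) < k := by exact_mod_cast hk
  rw [← ENNReal.rpow_mul, one_div_mul_cancel hk'.ne', ENNReal.rpow_one]

theorem F_step (H : SimpleGraph V) (W : Graphon) (k : ℕ) (e : Sym2 V)
    (h : ∀ i ∈ Cl H k, Indep (F H W k e) i) : F H W (k + 1) e = F H W k e := by
  funext x
  show ((∫⋯∫⁻_(Cl H k), (fun y => F H W k e y ^ ((k + 1 : ℕ) : ℝ))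
      ∂(fun _ => (volume : Measure unitInterval))) x) ^ (1 / ((k + 1 : ℕ) : ℝ)) = _
  rw [lmarginal_indep volume ((F_meas H W k e).pow_const _) _ (fun i hi => indep_rpow (h i hi) _)]
  exact rp_cancel _ (Nat.succ_pos k)

/-- no change between the stages `m` and `n` if the classes avoid the ends -/
theorem F_const (H : SimpleGraph V) (W : Graphon) (e : Sym2 V) (m n : ℕ) (hmn : m ≤ n)
    (h : ∀ k, m ≤ k → k < n → ∀ i ∈ Cl H k, i ∉ e) : F H W n e = F H W m e := by
  induction n, hmn using Nat.le_induction with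
  | base => rfl
  | succ n hn ih =>
    rw [F_step H W n e (fun i hi => F_indep H W n e i (h n hn (Nat.lt_succ_self n) i hi))]
    exact ih (fun k hk hkn => h k hk (hkn.trans (Nat.lt_succ_self n)))

/-- the row function -/
noncomputable def gE (W : Graphon) (b : ℕ) (s : unitInterval) : ℝ≥0∞ :=
  (∫⁻ t : unitInterval, ENNReal.ofReal (W.toFun s t) ^ (b : ℝ)) ^ (1 / (b : ℝ))

theorem gE_meas (W : Graphon) (b : ℕ) : Measurable (gE W b) := by
  have h0 : Measurable (Function.uncurry (fun s t : unitInterval =>
      ENNReal.ofReal (W.toFun s t) ^ (b : ℝ))) :=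
    (W.measurable.ennreal_ofReal).pow_const _
  exact (h0.lintegral_prod_right').pow_const _

theorem F_end (H : SimpleGraph V) (W : Graphon) (u v : V) (huv : u ≠ v) (K : ℕ)
    (hv : 1 ≤ (inc H v).card) (hvu : (inc H v).card ≤ (inc H u).card) (hK : (inc H u).card ≤ K)
    (x : V → unitInterval) :
    F H W K s(u, v) x = (N12 W (inc H v).card (inc H u).card) ^ (1 / ((inc H u).card : ℝ)) := by
  have hu : 1 ≤ (inc H u).card := hv.trans hvu
  obtain ⟨b, hb⟩ : ∃ b, (inc H v).card = b + 1 := ⟨(inc H v).card - 1, by omega⟩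
  obtain ⟨a, ha⟩ : ∃ a, (inc H u).card = a + 1 := ⟨(inc H u).card - 1, by omega⟩
  have hmem : ∀ i : V, i ∉ s(u, v) ↔ i ≠ u ∧ i ≠ v := by
    intro i; rw [Sym2.mem_iff]; tauto
  -- after the larger degree
  have e1 : F H W K s(u, v) = F H W (a + 1) s(u, v) := by
    apply F_const H W _ _ _ (by omega)
    intro k hk _ i hi
    rw [hmem]
    constructor
    · rintro rfl
      exact not_mem_Cl hu (by omega) hi
    · rintro rfl
      exact not_mem_Cl hv (by omega) hi
  have e0 : F H W b s(u, v) = ef W s(u, v) := by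
    have := F_const H W s(u, v) 0 b (Nat.zero_le _) (fun k _ hk i hi => by
      rw [hmem]
      constructor
      · rintro rfl
        exact not_mem_Cl hu (by omega) hi
      · rintro rfl
        exact not_mem_Cl hv (by omega) hi)
    rw [this]; rfl
  rw [e1, ha, hb]
  rcases Nat.lt_or_ge b a with hlt | hge
  · -- different degrees
    have eb : ∀ y, F H W (b + 1) s(u, v) y = gE W (b + 1) (y u) := by
      intro y
      show ((∫⋯∫⁻_(Cl H b), (fun z => F H W b s(u, v) z ^ ((b + 1 : ℕ) : ℝ))
        ∂(fun _ => (volume : Measure unitInterval))) y) ^ (1 / ((b + 1 : ℕ) : ℝ)) = _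
      rw [e0]
      unfold gE
      congr 1
      rw [lmarginal_one volume ((ef_measurable W _).pow_const _) (mem_Cl hb) (fun i hi hne =>
        indep_rpow (ef_indep W _ i (by
          rw [hmem]
          refine ⟨?_, hne⟩
          rintro rfl
          exact not_mem_Cl hu (by omega) hi)) _)]
      apply lintegral_congr; intro t
      show ENNReal.ofReal (W.toFun (Function.update y v t u) (Function.update y v t v)) ^ _ = _
      rw [Function.update_of_ne huv, Function.update_self]
    have ea : F H W a s(u, v) = F H W (b + 1) s(u, v) := by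
      apply F_const H W _ _ _ (by omega)
      intro k hk hka i hi
      rw [hmem]
      constructor
      · rintro rfl
        exact not_mem_Cl hu (by omega) hi
      · rintro rfl
        exact not_mem_Cl hv (by omega) hi
    show ((∫⋯∫⁻_(Cl H a), (fun z => F H W a s(u, v) z ^ ((a + 1 : ℕ) : ℝ))
        ∂(fun _ => (volume : Measure unitInterval))) x) ^ (1 / ((a + 1 : ℕ) : ℝ)) = _
    congr 1
    rw [ea]
    have e2 : (fun z : V → unitInterval => F H W (b + 1) s(u, v) z ^ ((a + 1 : ℕ) : ℝ)) =
        fun z => gE W (b + 1) (z u) ^ ((a + 1 : ℕ) : ℝ) := by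
      funext z; rw [eb z]
    rw [e2]
    have hm : Measurable (fun z : V → unitInterval => gE W (b + 1) (z u) ^ ((a + 1 : ℕ) : ℝ)) :=
      ((gE_meas W (b + 1)).comp (measurable_pi_apply u)).pow_const _
    rw [lmarginal_one volume hm (mem_Cl ha) (fun i _ hne y t => by
      show gE W (b + 1) (Function.update y i t u) ^ ((a + 1 : ℕ) : ℝ) = _
      rw [Function.update_of_ne (Ne.symm hne)])]
    unfold N12
    apply lintegral_congr; intro s
    rw [Function.update_self]
    rfl
  · -- equal degrees
    have hab : b = a := by omega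
    subst hab
    show ((∫⋯∫⁻_(Cl H b), (fun z => F H W b s(u, v) z ^ ((b + 1 : ℕ) : ℝ))
        ∂(fun _ => (volume : Measure unitInterval))) x) ^ (1 / ((b + 1 : ℕ) : ℝ)) = _
    congr 1
    rw [e0, lmarginal_two volume ((ef_measurable W _).pow_const _) huv (mem_Cl ha) (mem_Cl hb)
      (fun i _ h1 h2 => indep_rpow (ef_indep W _ i (by rw [hmem]; exact ⟨h1, h2⟩)) _)]
    unfold N12
    apply lintegral_congr; intro s
    rw [rp_cancel' _ (Nat.succ_pos b)]
    apply lintegral_congr; intro t
    show ENNReal.ofReal (W.toFun (Function.update (Function.update x u s) v t u)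
      (Function.update (Function.update x u s) v t v)) ^ _ = _
    rw [Function.update_of_ne huv, Function.update_self, Function.update_self]

/-- the smaller of the degrees of the ends of an edge -/
noncomputable def lo (H : SimpleGraph V) (e : Sym2 V) : ℕ :=
  Sym2.lift ⟨fun u v => min (inc H u).card (inc H v).card, fun _ _ => min_comm _ _⟩ e

/-- the larger of the degrees of the ends of an edge -/
noncomputable def hi (H : SimpleGraph V) (e : Sym2 V) : ℕ :=
  Sym2.lift ⟨fun u v => max (inc H u).card (inc H v).card, fun _ _ => max_comm _ _⟩ e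

/-- mixed moments -/
noncomputable def Zm (W : Graphon) (b a : ℕ) : ℝ :=
  ∫ s : unitInterval, ((∫ t : unitInterval, W.toFun s t ^ b) ^ (1 / (b : ℝ))) ^ a

theorem inc_pos (H : SimpleGraph V) {u v : V} (h : s(u, v) ∈ edges H) : 1 ≤ (inc H u).card := by
  apply Finset.card_pos.mpr
  exact ⟨s(u, v), Finset.mem_filter.mpr ⟨h, Sym2.mem_mk_left u v⟩⟩

theorem inc_le (H : SimpleGraph V) (u : V) : (inc H u).card ≤ (edges H).card :=
  Finset.card_le_card (Finset.filter_subset _ _)

theorem mixed_ennreal (H : SimpleGraph V) (W : Graphon) :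
    ENNReal.ofReal (homDensity H W) ≤
      ∏ e ∈ edges H, (N12 W (lo H e) (hi H e)) ^ (1 / (hi H e : ℝ)) := by
  classical
  let x : V → unitInterval := fun _ => 0
  set K := (edges H).card + 1 with hK
  have hLK : Lv H K = Finset.univ := by
    ext i; rw [mem_Lv]
    have := inc_le H i
    simp only [Finset.mem_univ, iff_true]
    omega
  have h1 := stages H W K x
  rw [hLK] at h1
  rw [ofReal_homDensity, lintegral_eq_lmarginal_univ x]
  refine h1.trans (le_of_eq ?_)
  apply Finset.prod_congr rfl
  intro e he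
  induction e with
  | h u v =>
    have huv : u ≠ v := by
      rintro rfl
      rw [mem_edges] at he
      exact H.loopless.irrefl _ he
    have hu := inc_pos H he
    have hv : 1 ≤ (inc H v).card := inc_pos H (by rw [Sym2.eq_swap]; exact he)
    show _ = (N12 W (min (inc H u).card (inc H v).card) (max (inc H u).card (inc H v).card)) ^
      (1 / ((max (inc H u).card (inc H v).card : ℕ) : ℝ))
    rcases le_total (inc H v).card (inc H u).card with h | h
    · rw [min_eq_right h, max_eq_left h]
      exact F_end H W u v huv K hv h ((inc_le H u).trans (by omega)) x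
    · rw [min_eq_left h, max_eq_right h, Sym2.eq_swap]
      exact F_end H W v u huv.symm K hu h ((inc_le H v).trans (by omega)) x

end Pool.Agent.H959.UG
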