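import Mathlib
import Pool.Agent.H959.UG.Mixed

/-!
MP_bbc525_pr (helper959): the mixed norm inequality with real numbers, its linearised form, and the
sum over the edges of a function of the degrees of the ends.
-/

set_option autoImplicit false
set_option linter.unusedSectionVars false

namespace Pool.Agent.H959.UG

open MeasureTheory Finset Function
open scoped ENNReal
open Pool.Agent.H767R5.UT Pool.Agent.H959.UT

theorem row_meas (W : Graphon) (b : ℕ) :
    Measurable (fun s : unitInterval => ∫ t : unitInterval, W.toFun s t ^ b) :=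
  ((W.measurable.pow_const b).stronglyMeasurable.integral_prod_right).measurable

theorem row_int (W : Graphon) (b : ℕ) (s : unitInterval) :
    Integrable (fun t : unitInterval => W.toFun s t ^ b) volume := by
  refine bdd_int _ ((W.measurable.comp measurable_prodMk_left).pow_const b) 1 (fun t => ?_)
  rw [abs_of_nonneg (pow_nonneg (W.nonneg s t) b)]
  exact pow_le_one₀ (W.nonneg s t) (W.le_one s t)

theorem row_nonneg (W : Graphon) (b : ℕ) (s : unitInterval) :
    0 ≤ ∫ t : unitInterval, W.toFun s t ^ b := integral_nonneg (fun t => pow_nonneg (W.nonneg s t) b)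

theorem row_le_one (W : Graphon) (b : ℕ) (s : unitInterval) :
    ∫ t : unitInterval, W.toFun s t ^ b ≤ 1 := by
  have := integral_mono (row_int W b s) (integrable_const (1 : ℝ))
    (fun t => pow_le_one₀ (W.nonneg s t) (W.le_one s t))
  simpa using this

theorem N12_real (W : Graphon) (b a : ℕ) : N12 W b a = ENNReal.ofReal (Zm W b a) := by
  unfold N12 Zm
  have h : ∀ s : unitInterval, ((∫⁻ t : unitInterval, ENNReal.ofReal (W.toFun s t) ^ (b : ℝ)) ^
      (1 / (b : ℝ))) ^ (a : ℝ) =
      ENNReal.ofReal (((∫ t : unitInterval, W.toFun s t ^ b) ^ (1 / (b : ℝ))) ^ a) := by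
    intro s
    have h1 : ∀ t, ENNReal.ofReal (W.toFun s t) ^ (b : ℝ) = ENNReal.ofReal (W.toFun s t ^ b) := by
      intro t
      rw [ENNReal.rpow_natCast, ENNReal.ofReal_pow (W.nonneg s t)]
    simp only [h1]
    rw [← ofReal_integral_eq_lintegral_ofReal (row_int W b s)
      (Filter.Eventually.of_forall (fun t => pow_nonneg (W.nonneg s t) b)),
      ENNReal.ofReal_rpow_of_nonneg (row_nonneg W b s) (by positivity), ENNReal.rpow_natCast,
      ← ENNReal.ofReal_pow (Real.rpow_nonneg (row_nonneg W b s) _)]
  simp only [h]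
  rw [ofReal_integral_eq_lintegral_ofReal]
  · refine bdd_int _ (((row_meas W b).pow_const _).pow_const a) 1 (fun s => ?_)
    have h0 := Real.rpow_nonneg (row_nonneg W b s) (1 / (b : ℝ))
    rw [abs_of_nonneg (pow_nonneg h0 a)]
    exact pow_le_one₀ h0 (Real.rpow_le_one (row_nonneg W b s) (row_le_one W b s) (by positivity))
  · exact Filter.Eventually.of_forall
      (fun s => pow_nonneg (Real.rpow_nonneg (row_nonneg W b s) _) a)

theorem Zm_nonneg (W : Graphon) (b a : ℕ) : 0 ≤ Zm W b a :=
  integral_nonneg (fun s => pow_nonneg (Real.rpow_nonneg (row_nonneg W b s) _) a)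

variable {V : Type} [Fintype V] [DecidableEq V]

theorem mixed (H : SimpleGraph V) (W : Graphon) :
    homDensity H W ≤ ∏ e ∈ edges H, (Zm W (lo H e) (hi H e)) ^ (1 / (hi H e : ℝ)) := by
  have h := mixed_ennreal H W
  have e : ∏ e ∈ edges H, (N12 W (lo H e) (hi H e)) ^ (1 / (hi H e : ℝ)) =
      ENNReal.ofReal (∏ e ∈ edges H, (Zm W (lo H e) (hi H e)) ^ (1 / (hi H e : ℝ))) := by
    rw [ENNReal.ofReal_prod_of_nonneg (fun e _ => Real.rpow_nonneg (Zm_nonneg W _ _) _)]
    apply Finset.prod_congr rfl
    intro e _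
    rw [N12_real, ENNReal.ofReal_rpow_of_nonneg (Zm_nonneg W _ _) (by positivity)]
  rw [e] at h
  exact (ENNReal.ofReal_le_ofReal_iff (Finset.prod_nonneg
    (fun e _ => Real.rpow_nonneg (Zm_nonneg W _ _) _))).mp h

theorem hi_pos (H : SimpleGraph V) {e : Sym2 V} (he : e ∈ edges H) : 1 ≤ hi H e := by
  induction e with
  | h u v => exact le_max_of_le_left (inc_pos H he)

theorem lo_pos (H : SimpleGraph V) {e : Sym2 V} (he : e ∈ edges H) : 1 ≤ lo H e := by
  induction e with
  | h u v => exact le_min (inc_pos H he) (inc_pos H (by rw [Sym2.eq_swap]; exact he))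

theorem lo_le_hi (H : SimpleGraph V) (e : Sym2 V) : lo H e ≤ hi H e := by
  induction e with
  | h u v => exact min_le_max

theorem hi_le (H : SimpleGraph V) (e : Sym2 V) : hi H e ≤ (edges H).card := by
  induction e with
  | h u v => exact max_le (inc_le H u) (inc_le H v)

theorem hi_deg (H : SimpleGraph V) (e : Sym2 V) : ∃ v, (inc H v).card = hi H e := by
  induction e with
  | h u v =>
    rcases le_total (inc H u).card (inc H v).card with h | h
    · exact ⟨v, (max_eq_right h).symm⟩
    · exact ⟨u, (max_eq_left h).symm⟩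

/-- linearised constraint -/
theorem lin_constraint (H : SimpleGraph V) (W : Graphon) {q : ℝ} (hq0 : 0 < q)
    (hW : q ^ (edges H).card ≤ homDensity H W) :
    0 ≤ ∑ e ∈ edges H, (1 / (hi H e : ℝ)) * (Zm W (lo H e) (hi H e) / q ^ (hi H e) - 1) := by
  have h := hW.trans (mixed H W)
  have hz : ∀ e ∈ edges H, (Zm W (lo H e) (hi H e)) ^ (1 / (hi H e : ℝ)) ≤
      q * Real.exp ((1 / (hi H e : ℝ)) * (Zm W (lo H e) (hi H e) / q ^ (hi H e) - 1)) := by
    intro e he
    set a := hi H e with ha
    have ha1 : 1 ≤ a := hi_pos H he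
    have ha0 : (0 : ℝ) < a := by exact_mod_cast ha1
    set z := Zm W (lo H e) a / q ^ a with hzdef
    have hz0 : 0 ≤ z := div_nonneg (Zm_nonneg W _ _) (by positivity)
    have e1 : Zm W (lo H e) a = q ^ a * z := by
      rw [hzdef]; field_simp
    rw [e1, Real.mul_rpow (by positivity) hz0, one_div, Real.pow_rpow_inv_natCast hq0.le (by omega)]
    apply mul_le_mul_of_nonneg_left _ hq0.le
    have h2 : z ≤ Real.exp (z - 1) := by
      have := Real.add_one_le_exp (z - 1)
      linarith
    calc z ^ ((a : ℝ)⁻¹) ≤ (Real.exp (z - 1)) ^ ((a : ℝ)⁻¹) :=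
          Real.rpow_le_rpow hz0 h2 (by positivity)
      _ = Real.exp ((a : ℝ)⁻¹ * (z - 1)) := by
          rw [← Real.exp_mul, mul_comm]
  have h3 := h.trans (Finset.prod_le_prod (fun e _ => Real.rpow_nonneg (Zm_nonneg W _ _) _) hz)
  rw [Finset.prod_mul_distrib, Finset.prod_const, ← Real.exp_sum] at h3
  have hqc : 0 < q ^ (edges H).card := by positivity
  have h4 : 1 ≤ Real.exp (∑ e ∈ edges H, (1 / (hi H e : ℝ)) *
      (Zm W (lo H e) (hi H e) / q ^ (hi H e) - 1)) := by
    by_contra hcon
    push Not at hcon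
    have := mul_lt_mul_of_pos_left hcon hqc
    linarith
  exact Real.one_le_exp_iff.mp h4

/-- Sum over the edges. -/
theorem handshake (H : SimpleGraph V) (f : ℕ → ℝ) (f0 : f 0 = 0) :
    ∑ e ∈ edges H, (f (hi H e) / (hi H e : ℝ) + f (lo H e) / (lo H e : ℝ)) =
      ∑ v : V, f (inc H v).card := by
  have h1 : ∀ v ∈ (Finset.univ : Finset V), f (inc H v).card =
      ∑ e ∈ edges H, (if v ∈ e then f (inc H v).card / ((inc H v).card : ℝ) else 0) := by
    intro v _
    rw [← Finset.sum_filter, Finset.sum_const]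
    show _ = (inc H v).card • _
    rcases Nat.eq_zero_or_pos (inc H v).card with h | h
    · rw [h, f0]; simp
    · have : (0 : ℝ) < (inc H v).card := by exact_mod_cast h
      rw [nsmul_eq_mul]
      field_simp
  rw [Finset.sum_congr rfl h1, Finset.sum_comm]
  apply Finset.sum_congr rfl
  intro e he
  induction e with
  | h u v =>
    have huv : u ≠ v := by
      rintro rfl
      rw [mem_edges] at he
      exact H.loopless.irrefl _ he
    have h2 : ∑ w : V, (if w ∈ s(u, v) then f (inc H w).card / ((inc H w).card : ℝ) else 0) =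
        f (inc H u).card / ((inc H u).card : ℝ) + f (inc H v).card / ((inc H v).card : ℝ) := by
      rw [← Finset.sum_filter]
      have h3 : Finset.univ.filter (fun w => w ∈ s(u, v)) = {u, v} := by
        ext w
        simp [Sym2.mem_iff]
      rw [h3, Finset.sum_pair huv]
    rw [h2]
    show f (max (inc H u).card (inc H v).card) / ((max (inc H u).card (inc H v).card : ℕ) : ℝ) +
      f (min (inc H u).card (inc H v).card) / ((min (inc H u).card (inc H v).card : ℕ) : ℝ) = _
    rcases le_total (inc H u).card (inc H v).card with h | h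
    · rw [max_eq_right h, min_eq_left h, add_comm]
    · rw [max_eq_left h, min_eq_right h]

end Pool.Agent.H959.UG
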