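import Mathlib
import Pool.Agent.H959.UG.MixedR
import Pool.Agent.H959.UG.Edge
import Pool.Agent.H959.UT.Suf

/-!
MP_bbc525_pr (helper959): moments of `W / q` and the constraint in terms of them.
-/

set_option autoImplicit false
set_option linter.unusedSectionVars false

namespace Pool.Agent.H959.UG

open MeasureTheory Finset Function
open Pool.Agent.H767R5.UT Pool.Agent.H959.UT

/-- `E (W/q)^d` -/
noncomputable def PW (W : Graphon) (q : ℝ) (d : ℕ) : ℝ :=
  ∫ z : unitInterval × unitInterval, (W.toFun z.1 z.2 / q) ^ d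

/-- `E ((W/q)^a - 1)_+` -/
noncomputable def BW (W : Graphon) (q : ℝ) (a : ℕ) : ℝ :=
  ∫ z : unitInterval × unitInterval, max ((W.toFun z.1 z.2 / q) ^ a - 1) 0

/-- `E (1 - W/q)_+` -/
noncomputable def AW (W : Graphon) (q : ℝ) : ℝ :=
  ∫ z : unitInterval × unitInterval, max (1 - W.toFun z.1 z.2 / q) 0

/-- `E (1 - W/q)_+^2` -/
noncomputable def NW (W : Graphon) (q : ℝ) : ℝ :=
  ∫ z : unitInterval × unitInterval, (max (1 - W.toFun z.1 z.2 / q) 0) ^ 2

theorem cP (q : ℝ) (d : ℕ) : Continuous (fun w : ℝ => (w / q) ^ d) := by fun_prop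
theorem cB (q : ℝ) (a : ℕ) : Continuous (fun w : ℝ => max ((w / q) ^ a - 1) 0) := by fun_prop
theorem cA (q : ℝ) : Continuous (fun w : ℝ => max (1 - w / q) 0) := by fun_prop
theorem cN (q : ℝ) : Continuous (fun w : ℝ => (max (1 - w / q) 0) ^ 2) := by fun_prop

theorem iter (W : Graphon) {f : ℝ → ℝ} (hf : Continuous f) :
    ∫ x : unitInterval, ∫ y : unitInterval, f (W.toFun x y) =
      ∫ z : unitInterval × unitInterval, f (W.toFun z.1 z.2) := by
  have h := int_cont W hf
  rw [Measure.volume_eq_prod] at h ⊢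
  rw [integral_prod _ h]

theorem Zm_div (W : Graphon) {q : ℝ} (hq0 : 0 < q) {b : ℕ} (hb : 1 ≤ b) (a : ℕ) :
    ∫ x : unitInterval, ((∫ y : unitInterval, (W.toFun x y / q) ^ b) ^ (1 / (b : ℝ))) ^ a =
      Zm W b a / q ^ a := by
  unfold Zm
  rw [← integral_div]
  congr 1
  funext x
  have h1 : ∫ y : unitInterval, (W.toFun x y / q) ^ b = (∫ y : unitInterval, W.toFun x y ^ b) / q ^ b := by
    rw [← integral_div]
    congr 1
    funext y
    rw [div_pow]
  rw [h1, Real.div_rpow (row_nonneg W b x) (by positivity), one_div,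
    Real.pow_rpow_inv_natCast hq0.le (by omega), div_pow]

/-- The inequality for one edge type. -/
theorem edge_W (W : Graphon) {q : ℝ} (hq0 : 0 < q) {a b : ℕ} (hb : 1 ≤ b) (hab : b ≤ a) :
    (1 / (a : ℝ)) * (Zm W b a / q ^ a - 1) ≤
      (1 / 2) * ((PW W q a - 1) / a + (PW W q b - 1) / b)
      + (((a : ℝ) - b) / (2 * a * b)) * BW W q a ^ 2 + (((a : ℝ) - b) / 2) * NW W q := by
  have h := edge_ineq (fun x y => W.toFun x y / q) (W.measurable.div_const q)
    (fun x y => by rw [W.symm x y]) (1 / q) (fun x y => div_nonneg (W.nonneg x y) hq0.le)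
    (fun x y => div_le_div_of_nonneg_right (W.le_one x y) hq0.le) hb hab
  rw [Zm_div W hq0 hb a, iter W (cP q a), iter W (cP q b), iter W (cB q a), iter W (cN q)] at h
  exact h

variable {V : Type} [Fintype V] [DecidableEq V]

theorem PW_zero (W : Graphon) (q : ℝ) : PW W q 0 = 1 := by
  unfold PW; simp

/-- The constraint. -/
theorem constraint (H : SimpleGraph V) (W : Graphon) {q : ℝ} (hq0 : 0 < q)
    (hW : q ^ (edges H).card ≤ homDensity H W) :
    0 ≤ ∑ v : V, (PW W q (inc H v).card - 1) +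
      ∑ e ∈ edges H, ((1 / (lo H e : ℝ) - 1 / (hi H e : ℝ)) * BW W q (hi H e) ^ 2 +
        ((hi H e : ℝ) - lo H e) * NW W q) := by
  have h := lin_constraint H W hq0 hW
  have h2 := Finset.sum_le_sum (fun e he => edge_W W hq0 (lo_pos H he) (lo_le_hi H e) :
    ∀ e ∈ edges H, _)
  have h3 : ∑ e ∈ edges H, ((1 / 2) * ((PW W q (hi H e) - 1) / (hi H e : ℝ) +
        (PW W q (lo H e) - 1) / (lo H e : ℝ))
      + (((hi H e : ℝ) - lo H e) / (2 * hi H e * lo H e)) * BW W q (hi H e) ^ 2 +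
        (((hi H e : ℝ) - lo H e) / 2) * NW W q) =
      (1 / 2) * (∑ v : V, (PW W q (inc H v).card - 1) +
      ∑ e ∈ edges H, ((1 / (lo H e : ℝ) - 1 / (hi H e : ℝ)) * BW W q (hi H e) ^ 2 +
        ((hi H e : ℝ) - lo H e) * NW W q)) := by
    rw [← handshake H (fun d => PW W q d - 1) (by simp [PW_zero]), ← Finset.sum_add_distrib,
      Finset.mul_sum]
    apply Finset.sum_congr rfl
    intro e he
    have hl : (0 : ℝ) < lo H e := by exact_mod_cast lo_pos H he
    have hh : (0 : ℝ) < hi H e := by exact_mod_cast hi_pos H he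
    field_simp
    ring
  rw [h3] at h2
  linarith

end Pool.Agent.H959.UG
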