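import Mathlib
import Pool.Agent.H959.UG.Mom
import Pool.Agent.H959.UT.MaxTwo

/-!
MP_bbc525_pr (helper959): for small density, or `p` close to `q`, the hub condition is sufficient for
replica symmetry, for every graph.
-/

set_option autoImplicit false
set_option linter.unusedSectionVars false

namespace Pool.Agent.H959.UG

open MeasureTheory Finset Function
open Pool.Agent.H767R5.UT Pool.Agent.H959.UT

/-- `E γ_d(W/q)` with `γ_d(x) = x^d - 1 - d (x - 1)` -/
noncomputable def GW (W : Graphon) (q : ℝ) (d : ℕ) : ℝ :=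
  ∫ z : unitInterval × unitInterval,
    ((W.toFun z.1 z.2 / q) ^ d - 1 - d * (W.toFun z.1 z.2 / q - 1))

theorem cG (q : ℝ) (d : ℕ) : Continuous (fun w : ℝ => (w / q) ^ d - 1 - d * (w / q - 1)) := by
  fun_prop

theorem GW_nonneg (W : Graphon) {q : ℝ} (hq0 : 0 < q) (d : ℕ) : 0 ≤ GW W q d :=
  integral_nonneg (fun _ => gam_nonneg (div_nonneg (W.nonneg _ _) hq0.le) d)

theorem PW_one (W : Graphon) (q : ℝ) : PW W q 1 = (∫ x, W.deg x) / q := by
  unfold PW
  simp only [pow_one]
  rw [integral_div, int_m]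

theorem GW_eq (W : Graphon) (q : ℝ) (d : ℕ) : GW W q d = PW W q d - 1 + d * (1 - PW W q 1) := by
  unfold GW PW
  have i1 := int_cont W (cP q d)
  have i2 := int_cont W (cP q 1)
  have e : ∀ z : unitInterval × unitInterval,
      (W.toFun z.1 z.2 / q) ^ d - 1 - d * (W.toFun z.1 z.2 / q - 1) =
      ((W.toFun z.1 z.2 / q) ^ d - d * (W.toFun z.1 z.2 / q) ^ 1) + ((d : ℝ) - 1) := by
    intro z; ring
  simp only [e]
  have j2 : Integrable (fun z : unitInterval × unitInterval =>
      (d : ℝ) * (W.toFun z.1 z.2 / q) ^ 1) volume := i2.const_mul _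
  have j3 : Integrable (fun z : unitInterval × unitInterval =>
      (W.toFun z.1 z.2 / q) ^ d - d * (W.toFun z.1 z.2 / q) ^ 1) volume := i1.sub j2
  rw [integral_add j3 (integrable_const _), integral_sub i1 j2, integral_const_mul]
  simp
  ring

theorem BW_nonneg (W : Graphon) (q : ℝ) (a : ℕ) : 0 ≤ BW W q a :=
  integral_nonneg (fun _ => le_max_right _ _)

theorem NW_nonneg (W : Graphon) (q : ℝ) : 0 ≤ NW W q :=
  integral_nonneg (fun _ => sq_nonneg _)

theorem AW_nonneg (W : Graphon) (q : ℝ) : 0 ≤ AW W q :=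
  integral_nonneg (fun _ => le_max_right _ _)

theorem AW_sq (W : Graphon) (q : ℝ) : AW W q ^ 2 ≤ NW W q := by
  unfold AW NW
  have i1 := int_cont W (cA q)
  have i2 := int_cont W (cN q)
  set A := ∫ z : unitInterval × unitInterval, max (1 - W.toFun z.1 z.2 / q) 0 with hA
  have h : 0 ≤ ∫ z : unitInterval × unitInterval, (max (1 - W.toFun z.1 z.2 / q) 0 - A) ^ 2 :=
    integral_nonneg (fun _ => sq_nonneg _)
  have e : ∀ z : unitInterval × unitInterval, (max (1 - W.toFun z.1 z.2 / q) 0 - A) ^ 2 =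
      ((max (1 - W.toFun z.1 z.2 / q) 0) ^ 2 - 2 * A * max (1 - W.toFun z.1 z.2 / q) 0) +
        A ^ 2 := by
    intro z; ring
  simp only [e] at h
  have j1 : Integrable (fun z : unitInterval × unitInterval =>
      2 * A * max (1 - W.toFun z.1 z.2 / q) 0) volume := i1.const_mul _
  have j3 : Integrable (fun z : unitInterval × unitInterval =>
      (max (1 - W.toFun z.1 z.2 / q) 0) ^ 2 - 2 * A * max (1 - W.toFun z.1 z.2 / q) 0) volume :=
    i2.sub j1
  rw [integral_add j3 (integrable_const _), integral_sub i2 j1, integral_const_mul, ← hA] at h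
  simp at h
  nlinarith

theorem delta_le (W : Graphon) (q : ℝ) : 1 - PW W q 1 ≤ AW W q := by
  unfold AW PW
  have i1 := int_cont W (cP q 1)
  have j : Integrable (fun z : unitInterval × unitInterval =>
      1 - (W.toFun z.1 z.2 / q) ^ 1) volume := (integrable_const (1 : ℝ)).sub i1
  have h := integral_mono j (int_cont W (cA q))
    (fun z => by
      show 1 - (W.toFun z.1 z.2 / q) ^ 1 ≤ max (1 - W.toFun z.1 z.2 / q) 0
      rw [pow_one]
      exact le_max_left _ _)
  have e : ∫ z : unitInterval × unitInterval, (1 - (W.toFun z.1 z.2 / q) ^ 1) =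
      1 - ∫ z : unitInterval × unitInterval, (W.toFun z.1 z.2 / q) ^ 1 := by
    rw [integral_sub (integrable_const (1 : ℝ)) i1]
    simp
  rw [e] at h
  exact h

theorem BW_le (W : Graphon) {q : ℝ} (hq0 : 0 < q) (a : ℕ) :
    BW W q a ≤ GW W q a + a * (AW W q - (1 - PW W q 1)) := by
  unfold BW GW AW PW
  have i0 := int_cont W (cB q a)
  have i1 := int_cont W (cG q a)
  have i2 := int_cont W (cA q)
  have i3 := int_cont W (cP q 1)
  have j2 : Integrable (fun z : unitInterval × unitInterval =>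
      (a : ℝ) * (max (1 - W.toFun z.1 z.2 / q) 0 + (W.toFun z.1 z.2 / q) ^ 1)) volume :=
    (i2.add i3).const_mul _
  have j3 : Integrable (fun z : unitInterval × unitInterval =>
      ((W.toFun z.1 z.2 / q) ^ a - 1 - a * (W.toFun z.1 z.2 / q - 1)) +
      (a : ℝ) * (max (1 - W.toFun z.1 z.2 / q) 0 + (W.toFun z.1 z.2 / q) ^ 1)) volume := i1.add j2
  have j4 : Integrable (fun z : unitInterval × unitInterval =>
      (((W.toFun z.1 z.2 / q) ^ a - 1 - a * (W.toFun z.1 z.2 / q - 1)) +
      (a : ℝ) * (max (1 - W.toFun z.1 z.2 / q) 0 + (W.toFun z.1 z.2 / q) ^ 1)) + (-(a : ℝ)))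
      volume := j3.add (integrable_const _)
  have h := integral_mono i0 j4 (fun z => by
    show max ((W.toFun z.1 z.2 / q) ^ a - 1) 0 ≤
      (((W.toFun z.1 z.2 / q) ^ a - 1 - a * (W.toFun z.1 z.2 / q - 1)) +
      (a : ℝ) * (max (1 - W.toFun z.1 z.2 / q) 0 + (W.toFun z.1 z.2 / q) ^ 1)) + (-(a : ℝ))
    have hx : 0 ≤ W.toFun z.1 z.2 / q := div_nonneg (W.nonneg _ _) hq0.le
    have h1 := pos_part hx a
    have h2 : max (W.toFun z.1 z.2 / q - 1) 0 =
        max (1 - W.toFun z.1 z.2 / q) 0 + W.toFun z.1 z.2 / q - 1 := by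
      rcases le_total (W.toFun z.1 z.2 / q) 1 with h | h
      · rw [max_eq_right (by linarith), max_eq_left (by linarith)]; ring
      · rw [max_eq_left (by linarith), max_eq_right (by linarith)]; ring
    rw [h2] at h1
    rw [pow_one]
    linarith)
  have e : ∫ z : unitInterval × unitInterval,
      ((((W.toFun z.1 z.2 / q) ^ a - 1 - a * (W.toFun z.1 z.2 / q - 1)) +
      (a : ℝ) * (max (1 - W.toFun z.1 z.2 / q) 0 + (W.toFun z.1 z.2 / q) ^ 1)) + (-(a : ℝ))) =
      (∫ z : unitInterval × unitInterval,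
        ((W.toFun z.1 z.2 / q) ^ a - 1 - a * (W.toFun z.1 z.2 / q - 1))) +
      a * ((∫ z : unitInterval × unitInterval, max (1 - W.toFun z.1 z.2 / q) 0) +
        ∫ z : unitInterval × unitInterval, (W.toFun z.1 z.2 / q) ^ 1) + (-(a : ℝ)) := by
    rw [integral_add j3 (integrable_const _), integral_add i1 j2, integral_const_mul,
      integral_add i2 i3]
    simp
  rw [e] at h
  linarith

variable {V : Type} [Fintype V] [DecidableEq V]

/-- The constant `C(H)`. -/
noncomputable def CH (H : SimpleGraph V) : ℝ :=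
  (∑ e ∈ edges H, ((1 / (lo H e : ℝ) - 1 / (hi H e : ℝ)) *
      (2 * (edges H).card / (vd H (hi H e) : ℝ)) ^ 2 + ((hi H e : ℝ) - lo H e)) +
    (∑ v : V, ((inc H v).card : ℝ) * ((inc H v).card - 1)) / 2) / (edges H).card

theorem sum_deg_real (H : SimpleGraph V) : ∑ v : V, ((inc H v).card : ℝ) = 2 * (edges H).card := by
  have := sum_inc_univ H
  exact_mod_cast this

theorem sum_GW (H : SimpleGraph V) (W : Graphon) (q : ℝ) :
    ∑ v : V, GW W q (inc H v).card =
      ∑ v : V, (PW W q (inc H v).card - 1) + 2 * (edges H).card * (1 - PW W q 1) := by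
  rw [← sum_deg_real, Finset.sum_mul, ← Finset.sum_add_distrib]
  exact Finset.sum_congr rfl (fun v _ => GW_eq W q _)

theorem vd_mul_GW (H : SimpleGraph V) (W : Graphon) {q : ℝ} (hq0 : 0 < q) (d : ℕ) :
    (vd H d : ℝ) * GW W q d ≤ ∑ v : V, GW W q (inc H v).card := by
  have h : (vd H d : ℝ) * GW W q d =
      ∑ v ∈ Finset.univ.filter (fun v => (inc H v).card = d), GW W q (inc H v).card := by
    rw [Finset.sum_congr rfl (g := fun _ => GW W q d) (fun v hv => by
      rw [(Finset.mem_filter.mp hv).2]), Finset.sum_const, vd_eq, nsmul_eq_mul]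
  rw [h]
  exact Finset.sum_le_sum_of_subset_of_nonneg (Finset.filter_subset _ _)
    (fun v _ _ => GW_nonneg W hq0 _)

theorem vd_mul_deg (H : SimpleGraph V) (d : ℕ) : (vd H d : ℝ) * d ≤ 2 * (edges H).card := by
  have h : (vd H d : ℝ) * d =
      ∑ v ∈ Finset.univ.filter (fun v => (inc H v).card = d), ((inc H v).card : ℝ) := by
    rw [Finset.sum_congr rfl (g := fun _ => (d : ℝ)) (fun v hv => by
      rw [(Finset.mem_filter.mp hv).2]), Finset.sum_const, vd_eq, nsmul_eq_mul]
  rw [h, ← sum_deg_real]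
  exact Finset.sum_le_sum_of_subset_of_nonneg (Finset.filter_subset _ _)
    (fun v _ _ => Nat.cast_nonneg _)

theorem vd_hi_pos (H : SimpleGraph V) (e : Sym2 V) : 0 < (vd H (hi H e) : ℝ) := by
  obtain ⟨v, hv⟩ := hi_deg H e
  rw [vd_eq]
  have : 0 < (Finset.univ.filter (fun w => (inc H w).card = hi H e)).card :=
    Finset.card_pos.mpr ⟨v, Finset.mem_filter.mpr ⟨Finset.mem_univ v, hv⟩⟩
  exact_mod_cast this

theorem CH_nonneg (H : SimpleGraph V) : 0 ≤ CH H := by
  unfold CH
  apply div_nonneg _ (Nat.cast_nonneg _)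
  apply add_nonneg
  · apply Finset.sum_nonneg
    intro e he
    have hl : (0 : ℝ) < lo H e := by exact_mod_cast lo_pos H he
    have hh : (lo H e : ℝ) ≤ hi H e := by exact_mod_cast lo_le_hi H e
    have h1 : 1 / (hi H e : ℝ) ≤ 1 / (lo H e : ℝ) := one_div_le_one_div_of_le hl hh
    have h2 : 0 ≤ (1 / (lo H e : ℝ) - 1 / (hi H e : ℝ)) *
      (2 * (edges H).card / (vd H (hi H e) : ℝ)) ^ 2 := mul_nonneg (by linarith) (sq_nonneg _)
    linarith
  · apply div_nonneg _ (by norm_num)
    apply Finset.sum_nonneg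
    intro v _
    rcases Nat.eq_zero_or_pos (inc H v).card with h | h
    · rw [h]; simp
    · have : (1 : ℝ) ≤ (inc H v).card := by exact_mod_cast h
      exact mul_nonneg (by linarith) (by linarith)

/-- The hub condition, with the weight `λ` of the second order. -/
def HubC (H : SimpleGraph V) (p q : ℝ) : Prop :=
  ∀ r : ℝ, 0 ≤ r → r ≤ 1 →
    q * ((Real.log q - Real.log (1 - q)) - (Real.log p - Real.log (1 - p))) /
      (2 * (edges H).card) * ∑ v : V, ((r / q) ^ (inc H v).card - 1) ≤ Ip p r - Ip p q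

theorem sum_pow_gam (H : SimpleGraph V) (x : ℝ) :
    ∑ v : V, (x ^ (inc H v).card - 1) =
      ∑ v : V, (x ^ (inc H v).card - 1 - (inc H v).card * (x - 1)) +
        2 * (edges H).card * (x - 1) := by
  rw [← sum_deg_real, Finset.sum_mul, ← Finset.sum_add_distrib]
  apply Finset.sum_congr rfl
  intro v _
  ring

theorem alg1 (q lam E S x : ℝ) (hE : 0 < E) :
    q * lam / (2 * E) * (S + 2 * E * (x - 1)) = q * lam / (2 * E) * S + q * lam * (x - 1) := by
  field_simp

theorem alg2 (q lam E D y : ℝ) (hE : 0 < E) :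
    q * lam / (2 * E) * (D / 2 * y) = q * lam / (4 * E) * D * y := by
  field_simp
  ring

theorem alg3 (q x : ℝ) (hq : 0 < q) : (q - q * x) ^ 2 / (2 * q) = q / 2 * (1 - x) ^ 2 := by
  field_simp

/-- Pointwise improvement of the hub condition below `q`. -/
theorem pointwise (H : SimpleGraph V) (hE : 0 < (edges H).card) {p q : ℝ} (hp0 : 0 < p)
    (hpq : p < q) (hq1 : q < 1) (hub : HubC H p q) {r : ℝ} (hr0 : 0 ≤ r) (hr1 : r ≤ 1) :
    q * ((Real.log q - Real.log (1 - q)) - (Real.log p - Real.log (1 - p))) /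
      (2 * (edges H).card) * ∑ v : V, ((r / q) ^ (inc H v).card - 1) +
      (q / 2 - q * ((Real.log q - Real.log (1 - q)) - (Real.log p - Real.log (1 - p))) /
        (4 * (edges H).card) * ∑ v : V, ((inc H v).card : ℝ) * ((inc H v).card - 1)) *
        (max (1 - r / q) 0) ^ 2 ≤ Ip p r - Ip p q := by
  have hq0 : 0 < q := hp0.trans hpq
  have hp1 : p < 1 := hpq.trans hq1
  rcases le_total q r with h | h
  · have h1 : 1 - r / q ≤ 0 := by
      have : 1 ≤ r / q := by rw [le_div_iff₀ hq0]; linarith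
      linarith
    rw [max_eq_right h1]
    have := hub r hr0 hr1
    linarith
  · have hx0 : 0 ≤ r / q := div_nonneg hr0 hq0.le
    have hx1 : r / q ≤ 1 := by rw [div_le_iff₀ hq0]; linarith
    rw [max_eq_left (by linarith)]
    have hexp := Ip_expand hp0 hp1 hq0 hq1 r
    have hlam := lam_pos hp0 hpq hq1
    set lam := (Real.log q - Real.log (1 - q)) - (Real.log p - Real.log (1 - p)) with hlamdef
    have hkl := kl_lower hr0 h hq0 hq1
    have hkl' : (q - r) ^ 2 / (2 * q) ≤ Ip q r := hkl
    set x := r / q with hx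
    have hrx : r = q * x := by rw [hx]; exact (mul_div_cancel₀ r hq0.ne').symm
    have hE' : (0 : ℝ) < (edges H).card := by exact_mod_cast hE
    have hs : ∑ v : V, (x ^ (inc H v).card - 1 - (inc H v).card * (x - 1)) ≤
        (∑ v : V, ((inc H v).card : ℝ) * ((inc H v).card - 1)) / 2 * (1 - x) ^ 2 := by
      rw [Finset.sum_div, Finset.sum_mul]
      exact Finset.sum_le_sum (fun v _ => gam_upper hx0 hx1 _)
    rw [sum_pow_gam, hexp]
    set S := ∑ v : V, (x ^ (inc H v).card - 1 - (inc H v).card * (x - 1)) with hS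
    set D := ∑ v : V, ((inc H v).card : ℝ) * ((inc H v).card - 1) with hD
    rw [hrx, alg3 q x hq0, ← hrx] at hkl'
    have h2 : q * lam / (2 * (edges H).card) * S ≤
        q * lam / (2 * (edges H).card) * (D / 2 * (1 - x) ^ 2) :=
      mul_le_mul_of_nonneg_left hs (div_nonneg (mul_nonneg hq0.le hlam.le) (by linarith))
    rw [alg1 q lam _ S x hE']
    rw [alg2 q lam _ D _ hE'] at h2
    have e4 : (r - q) * lam = q * lam * (x - 1) := by rw [hrx]; ring
    rw [e4]
    linarith

/-- The integrated form. -/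
theorem integrated (H : SimpleGraph V) (hE : 0 < (edges H).card) {p q : ℝ} (hp0 : 0 < p)
    (hpq : p < q) (hq1 : q < 1) (hub : HubC H p q) (W : Graphon) :
    q * ((Real.log q - Real.log (1 - q)) - (Real.log p - Real.log (1 - p))) /
      (2 * (edges H).card) * ∑ v : V, (PW W q (inc H v).card - 1) +
      (q / 2 - q * ((Real.log q - Real.log (1 - q)) - (Real.log p - Real.log (1 - p))) /
        (4 * (edges H).card) * ∑ v : V, ((inc H v).card : ℝ) * ((inc H v).card - 1)) *
        NW W q ≤ cost p W - Ip p q := by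
  have hq0 : 0 < q := hp0.trans hpq
  have hp1 : p < 1 := hpq.trans hq1
  set lam := (Real.log q - Real.log (1 - q)) - (Real.log p - Real.log (1 - p)) with hlamdef
  set c1 := q * lam / (2 * (edges H).card) with hc1
  set c2 := q / 2 - q * lam /
        (4 * (edges H).card) * ∑ v : V, ((inc H v).card : ℝ) * ((inc H v).card - 1) with hc2
  have i1 : ∀ v : V, Integrable (fun z : unitInterval × unitInterval =>
      (W.toFun z.1 z.2 / q) ^ (inc H v).card - 1) volume := fun v =>
    (int_cont W (cP q _)).sub (integrable_const _)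
  have i2 : Integrable (fun z : unitInterval × unitInterval =>
      ∑ v : V, ((W.toFun z.1 z.2 / q) ^ (inc H v).card - 1)) volume :=
    integrable_finsetSum _ (fun v _ => i1 v)
  have i3 : Integrable (fun z : unitInterval × unitInterval =>
      c1 * ∑ v : V, ((W.toFun z.1 z.2 / q) ^ (inc H v).card - 1)) volume := i2.const_mul _
  have i4 : Integrable (fun z : unitInterval × unitInterval =>
      c2 * (max (1 - W.toFun z.1 z.2 / q) 0) ^ 2) volume := (int_cont W (cN q)).const_mul _
  have i5 : Integrable (fun z : unitInterval × unitInterval =>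
      c1 * ∑ v : V, ((W.toFun z.1 z.2 / q) ^ (inc H v).card - 1) +
      c2 * (max (1 - W.toFun z.1 z.2 / q) 0) ^ 2) volume := i3.add i4
  have i6 : Integrable (fun z : unitInterval × unitInterval =>
      Ip p (W.toFun z.1 z.2) - Ip p q) volume :=
    (cost_integrable hp0 hp1 W).sub (integrable_const _)
  have h := integral_mono i5 i6 (fun z => pointwise H hE hp0 hpq hq1 hub (W.nonneg z.1 z.2)
    (W.le_one z.1 z.2))
  have e1 : ∫ z : unitInterval × unitInterval,
      (c1 * ∑ v : V, ((W.toFun z.1 z.2 / q) ^ (inc H v).card - 1) +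
      c2 * (max (1 - W.toFun z.1 z.2 / q) 0) ^ 2) =
      c1 * ∑ v : V, (PW W q (inc H v).card - 1) + c2 * NW W q := by
    rw [integral_add i3 i4, integral_const_mul, integral_const_mul,
      integral_finsetSum _ (fun v _ => i1 v)]
    have e3 : ∀ v : V, ∫ z : unitInterval × unitInterval,
        ((W.toFun z.1 z.2 / q) ^ (inc H v).card - 1) = PW W q (inc H v).card - 1 := by
      intro v
      rw [integral_sub (int_cont W (cP q _)) (integrable_const _)]
      simp [PW]
    simp only [e3]
    rfl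
  have e2 : ∫ z : unitInterval × unitInterval, (Ip p (W.toFun z.1 z.2) - Ip p q) =
      cost p W - Ip p q := by
    rw [integral_sub (cost_integrable hp0 hp1 W) (integrable_const _)]
    simp [cost]
  rw [e1, e2] at h
  exact h

end Pool.Agent.H959.UG
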