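import Mathlib
import Pool.Agent.H959.UG.Main

/-!
MP_bbc525_pr (helper959): for small density, or `p` close to `q`, the hub condition is necessary and
sufficient for replica symmetry, for every graph.
-/

set_option autoImplicit false
set_option linter.unusedSectionVars false

namespace Pool.Agent.H959.UG

open MeasureTheory Finset Function
open Pool.Agent.H767R5.UT Pool.Agent.H959.UT

variable {V : Type} [Fintype V] [DecidableEq V]

theorem alg4 (q lam E S D : ℝ) (hE : 0 < E) :
    q * lam / (2 * E) * (-S) + (q / 2 - q * lam / (4 * E) * D) =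
      q / 2 * (1 - lam * ((S + D / 2) / E)) := by
  field_simp
  ring

/-- Under the hub condition and `C(H) λ < 1` a feasible `W` of cost at most `I_p(q)` has edge density
at least `q`. -/
theorem dense_of_cost (H : SimpleGraph V) (hE : 0 < (edges H).card) {p q : ℝ} (hp0 : 0 < p)
    (hpq : p < q) (hq1 : q < 1) (hub : HubC H p q)
    (hC : CH H * ((Real.log q - Real.log (1 - q)) - (Real.log p - Real.log (1 - p))) < 1)
    (W : Graphon) (hW : q ^ (edges H).card ≤ homDensity H W) (hc : cost p W ≤ Ip p q) :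
    q ≤ ∫ x, W.deg x := by
  have hq0 : 0 < q := hp0.trans hpq
  have hlam := lam_pos hp0 hpq hq1
  have hint := integrated H hE hp0 hpq hq1 hub W
  have hcon := constraint H W hq0 hW
  set lam := (Real.log q - Real.log (1 - q)) - (Real.log p - Real.log (1 - p)) with hlamdef
  have hE' : (0 : ℝ) < (edges H).card := by exact_mod_cast hE
  set E : ℝ := ((edges H).card : ℝ) with hEdef
  set δ := 1 - PW W q 1 with hδ
  have hδA : δ ≤ AW W q := delta_le W q
  have hA0 := AW_nonneg W q
  have hAN := AW_sq W q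
  have hN0 := NW_nonneg W q
  -- the sum of the `γ`
  have hG := sum_GW H W q
  rw [← hδ, ← hEdef] at hG
  set P := ∑ v : V, (PW W q (inc H v).card - 1) with hP
  set D := ∑ v : V, ((inc H v).card : ℝ) * ((inc H v).card - 1) with hD
  -- hub condition alone: `P ≤ 0`
  have hP0 : P ≤ 0 := by
    have i1 : ∀ v : V, Integrable (fun z : unitInterval × unitInterval =>
        (W.toFun z.1 z.2 / q) ^ (inc H v).card - 1) volume := fun v =>
      (int_cont W (cP q _)).sub (integrable_const _)
    have i3 : Integrable (fun z : unitInterval × unitInterval =>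
        q * lam / (2 * E) * ∑ v : V, ((W.toFun z.1 z.2 / q) ^ (inc H v).card - 1)) volume :=
      (integrable_finsetSum _ (fun v _ => i1 v)).const_mul _
    have i6 : Integrable (fun z : unitInterval × unitInterval =>
        Ip p (W.toFun z.1 z.2) - Ip p q) volume :=
      (cost_integrable hp0 (hpq.trans hq1) W).sub (integrable_const _)
    have h := integral_mono i3 i6 (fun z => hub _ (W.nonneg z.1 z.2) (W.le_one z.1 z.2))
    have e2 : ∫ z : unitInterval × unitInterval, (Ip p (W.toFun z.1 z.2) - Ip p q) =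
        cost p W - Ip p q := by
      rw [integral_sub (cost_integrable hp0 (hpq.trans hq1) W) (integrable_const _)]
      simp [cost]
    have e3 : ∀ v : V, ∫ z : unitInterval × unitInterval,
        ((W.toFun z.1 z.2 / q) ^ (inc H v).card - 1) = PW W q (inc H v).card - 1 := by
      intro v
      rw [integral_sub (int_cont W (cP q _)) (integrable_const _)]
      simp [PW]
    rw [e2, integral_const_mul, integral_finsetSum _ (fun v _ => i1 v)] at h
    simp only [e3] at h
    rw [← hP] at h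
    have hk : 0 < q * lam / (2 * E) := div_pos (mul_pos hq0 hlam) (by linarith)
    by_contra hcn
    push Not at hcn
    have := mul_pos hk hcn
    linarith
  have hG2 : ∑ v : V, GW W q (inc H v).card ≤ 2 * E * δ := by linarith
  -- bound of `B_a`
  have hB : ∀ e ∈ edges H, BW W q (hi H e) ^ 2 ≤
      (2 * E / (vd H (hi H e) : ℝ)) ^ 2 * NW W q := by
    intro e _
    have hn := vd_hi_pos H e
    have h1 := BW_le W hq0 (hi H e)
    rw [← hδ] at h1
    have h2 := vd_mul_GW H W hq0 (hi H e)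
    have h3 := vd_mul_deg H (hi H e)
    rw [← hEdef] at h3
    have h4 : (vd H (hi H e) : ℝ) * BW W q (hi H e) ≤ 2 * E * AW W q := by
      have h5 := mul_le_mul_of_nonneg_left h1 hn.le
      have h6 := mul_le_mul_of_nonneg_right h3 (by linarith : 0 ≤ AW W q - δ)
      nlinarith
    have h7 : BW W q (hi H e) ≤ 2 * E / (vd H (hi H e) : ℝ) * AW W q := by
      rw [div_mul_eq_mul_div, le_div_iff₀ hn]
      linarith
    calc BW W q (hi H e) ^ 2 ≤ (2 * E / (vd H (hi H e) : ℝ) * AW W q) ^ 2 :=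
          pow_le_pow_left₀ (BW_nonneg W q _) h7 2
      _ = (2 * E / (vd H (hi H e) : ℝ)) ^ 2 * AW W q ^ 2 := by ring
      _ ≤ _ := mul_le_mul_of_nonneg_left hAN (sq_nonneg _)
  have hsum : ∑ e ∈ edges H, ((1 / (lo H e : ℝ) - 1 / (hi H e : ℝ)) * BW W q (hi H e) ^ 2 +
        ((hi H e : ℝ) - lo H e) * NW W q) ≤
      (∑ e ∈ edges H, ((1 / (lo H e : ℝ) - 1 / (hi H e : ℝ)) *
      (2 * E / (vd H (hi H e) : ℝ)) ^ 2 + ((hi H e : ℝ) - lo H e))) * NW W q := by
    rw [Finset.sum_mul]
    apply Finset.sum_le_sum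
    intro e he
    have hl : (0 : ℝ) < lo H e := by exact_mod_cast lo_pos H he
    have hh : (lo H e : ℝ) ≤ hi H e := by exact_mod_cast lo_le_hi H e
    have h1 : 1 / (hi H e : ℝ) ≤ 1 / (lo H e : ℝ) := one_div_le_one_div_of_le hl hh
    have h2 := mul_le_mul_of_nonneg_left (hB e he)
      (by linarith : 0 ≤ 1 / (lo H e : ℝ) - 1 / (hi H e : ℝ))
    rw [add_mul, mul_assoc]
    linarith
  have hCH : CH H = ((∑ e ∈ edges H, ((1 / (lo H e : ℝ) - 1 / (hi H e : ℝ)) *
      (2 * E / (vd H (hi H e) : ℝ)) ^ 2 + ((hi H e : ℝ) - lo H e))) + D / 2) / E := rfl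
  set S := ∑ e ∈ edges H, ((1 / (lo H e : ℝ) - 1 / (hi H e : ℝ)) *
      (2 * E / (vd H (hi H e) : ℝ)) ^ 2 + ((hi H e : ℝ) - lo H e)) with hS
  have hPS : -(S * NW W q) ≤ P := by linarith
  have hk : 0 ≤ q * lam / (2 * E) := div_nonneg (mul_nonneg hq0.le hlam.le) (by linarith)
  have h8 := mul_le_mul_of_nonneg_left hPS hk
  have h9 : (q * lam / (2 * E) * (-S) + (q / 2 - q * lam / (4 * E) * D)) * NW W q ≤
      cost p W - Ip p q := by
    nlinarith
  rw [alg4 q lam E S D hE', ← hCH] at h9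
  have h10 : 0 < q / 2 * (1 - lam * CH H) := by
    apply mul_pos (by linarith)
    linarith
  have hN : NW W q ≤ 0 := by
    by_contra hcn
    push Not at hcn
    have := mul_pos h10 hcn
    linarith
  have hA : AW W q ≤ 0 := by
    by_contra hcn
    push Not at hcn
    have := mul_pos hcn hcn
    nlinarith
  have h11 : 1 ≤ PW W q 1 := by linarith
  rw [PW_one, le_div_iff₀ hq0] at h11
  linarith

/-- Sufficiency. -/
theorem suff_hub (H : SimpleGraph V) (hE : 0 < (edges H).card) {p q : ℝ} (hp0 : 0 < p)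
    (hpq : p ≤ q) (hq1 : q < 1) (hub : HubC H p q)
    (hC : CH H * ((Real.log q - Real.log (1 - q)) - (Real.log p - Real.log (1 - p))) < 1)
    (W : Graphon) (hW : Feasible H q W) :
    Ip p q ≤ cost p W ∧ (cost p W = Ip p q →
      ∀ᵐ z : unitInterval × unitInterval, W.toFun z.1 z.2 = q) := by
  have hq0 : 0 < q := hp0.trans_le hpq
  have hW' : q ^ (edges H).card ≤ homDensity H W := by rw [edges_card]; exact hW
  rcases hpq.eq_or_lt with h | h
  · subst h
    have h0 : Ip p p = 0 := by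
      rw [Ip_eq hp0 hq1]; unfold Hf; ring
    rw [h0]
    refine ⟨cost_nonneg hp0 hq1 W, fun hc => ?_⟩
    unfold cost at hc
    have hae := (integral_eq_zero_iff_of_nonneg
      (fun z => Ip_nonneg hp0 hq1 (W.nonneg _ _) (W.le_one _ _)) (cost_integrable hp0 hq1 W)).mp hc
    filter_upwards [hae] with z hz
    exact Ip_eq_zero hp0 hq1 (W.nonneg _ _) (W.le_one _ _) hz
  · rcases le_or_gt (cost p W) (Ip p q) with hc | hc
    · exact suff_dense W hp0 hpq hq1 (dense_of_cost H hE hp0 h hq1 hub hC W hW' hc)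
    · exact ⟨hc.le, fun h2 => absurd h2 hc.ne'⟩

/-- The hub condition at `r = 1`. -/
theorem lam_small (H : SimpleGraph V) (hE : 0 < (edges H).card) {p q : ℝ} (hp0 : 0 < p)
    (hpq : p ≤ q) (hq1 : q < 1) (hub : HubC H p q) :
    ((Real.log q - Real.log (1 - q)) - (Real.log p - Real.log (1 - p))) *
      (q * ∑ v : V, ((1 / q) ^ (inc H v).card - 1) - 2 * (edges H).card * (1 - q)) ≤
      2 * (edges H).card * Real.log (1 / q) := by
  have hq0 : 0 < q := hp0.trans_le hpq
  have hp1 : p < 1 := hpq.trans_lt hq1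
  have hE' : (0 : ℝ) < (edges H).card := by exact_mod_cast hE
  have h := hub 1 zero_le_one le_rfl
  rw [Ip_expand hp0 hp1 hq0 hq1 1] at h
  set lam := (Real.log q - Real.log (1 - q)) - (Real.log p - Real.log (1 - p)) with hlamdef
  have e1 : Ip q 1 = Real.log (1 / q) := by
    unfold Ip; simp
  rw [e1] at h
  set S := ∑ v : V, ((1 / q) ^ (inc H v).card - 1) with hS
  have h3 : q * lam / (2 * (edges H).card) * S ≤ (1 - q) * lam + Real.log (1 / q) := by linarith
  rw [div_mul_eq_mul_div, div_le_iff₀ (by linarith)] at h3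
  nlinarith

/-- Lower bound for the sum in the hub condition at `r = 1`. -/
theorem sum_lower (H : SimpleGraph V) {q : ℝ} (hq0 : 0 < q) (hq1 : q < 1) {d : ℕ} (hd : 2 ≤ d) :
    (vd H d : ℝ) * (1 - q) ^ d ≤
      q ^ (d - 1) * (q * ∑ v : V, ((1 / q) ^ (inc H v).card - 1) -
        2 * (edges H).card * (1 - q)) := by
  have hx1 : 1 ≤ 1 / q := by rw [le_div_iff₀ hq0]; linarith
  have hs : (vd H d : ℝ) * (1 / q - 1) ^ d ≤
      ∑ v : V, ((1 / q) ^ (inc H v).card - 1 - (inc H v).card * (1 / q - 1)) := by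
    have h1 : (vd H d : ℝ) * (1 / q - 1) ^ d ≤
        (vd H d : ℝ) * ((1 / q) ^ d - 1 - d * (1 / q - 1)) :=
      mul_le_mul_of_nonneg_left (gam_pow hx1 hd) (Nat.cast_nonneg _)
    refine h1.trans ?_
    have h2 : (vd H d : ℝ) * ((1 / q) ^ d - 1 - d * (1 / q - 1)) =
        ∑ v ∈ Finset.univ.filter (fun v => (inc H v).card = d),
          ((1 / q) ^ (inc H v).card - 1 - (inc H v).card * (1 / q - 1)) := by
      rw [Finset.sum_congr rfl (g := fun _ => (1 / q) ^ d - 1 - d * (1 / q - 1)) (fun v hv => by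
        rw [(Finset.mem_filter.mp hv).2]), Finset.sum_const, vd_eq, nsmul_eq_mul]
    rw [h2]
    exact Finset.sum_le_sum_of_subset_of_nonneg (Finset.filter_subset _ _)
      (fun v _ _ => gam_nonneg (by linarith) _)
  have h4 : q * ∑ v : V, ((1 / q) ^ (inc H v).card - 1) - 2 * (edges H).card * (1 - q) =
      q * ∑ v : V, ((1 / q) ^ (inc H v).card - 1 - (inc H v).card * (1 / q - 1)) := by
    rw [sum_pow_gam]
    have e2 : q * (1 / q - 1) = 1 - q := by field_simp
    linear_combination (2 * ((edges H).card : ℝ)) * e2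
  rw [h4]
  have h5 := mul_le_mul_of_nonneg_left hs (by positivity : 0 ≤ q ^ (d - 1) * q)
  obtain ⟨k, hk⟩ : ∃ k, d = k + 1 := ⟨d - 1, by omega⟩
  have e5 : d - 1 = k := by omega
  rw [e5] at h5 ⊢
  have e3 : q ^ k * q * ((vd H d : ℝ) * (1 / q - 1) ^ d) = (vd H d : ℝ) * (1 - q) ^ d := by
    have e4 : 1 / q - 1 = (1 - q) / q := by field_simp
    rw [e4, div_pow, ← pow_succ, hk]
    have : q ^ (k + 1) ≠ 0 := pow_ne_zero _ hq0.ne'
    field_simp
  rw [e3] at h5
  linarith

/-- `C(H) ≤ 6 e(H)²`. -/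
theorem CH_le (H : SimpleGraph V) (hE : 0 < (edges H).card) :
    CH H ≤ 6 * ((edges H).card : ℝ) ^ 2 := by
  have hE' : (0 : ℝ) < (edges H).card := by exact_mod_cast hE
  have hE1 : (1 : ℝ) ≤ (edges H).card := by exact_mod_cast hE
  unfold CH
  rw [div_le_iff₀ hE']
  set E : ℝ := ((edges H).card : ℝ) with hEdef
  have h1 : ∀ e ∈ edges H, ((1 / (lo H e : ℝ) - 1 / (hi H e : ℝ)) *
      (2 * E / (vd H (hi H e) : ℝ)) ^ 2 + ((hi H e : ℝ) - lo H e)) ≤ 4 * E ^ 2 + (E - 1) := by
    intro e he
    have hl : (1 : ℝ) ≤ lo H e := by exact_mod_cast lo_pos H he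
    have hh : (lo H e : ℝ) ≤ hi H e := by exact_mod_cast lo_le_hi H e
    have hhE : (hi H e : ℝ) ≤ E := by rw [hEdef]; exact_mod_cast hi_le H e
    have hn := vd_hi_pos H e
    have hn1 : (1 : ℝ) ≤ vd H (hi H e) := by
      have : 0 < vd H (hi H e) := by exact_mod_cast hn
      exact_mod_cast this
    have h2 : (2 * E / (vd H (hi H e) : ℝ)) ^ 2 ≤ (2 * E) ^ 2 := by
      apply pow_le_pow_left₀ (by positivity)
      exact div_le_self (by linarith) hn1
    have h3 : 1 / (lo H e : ℝ) ≤ 1 := by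
      rw [div_le_one (by linarith)]; exact hl
    have h4 : 0 ≤ 1 / (hi H e : ℝ) := by positivity
    have h5 : 1 / (hi H e : ℝ) ≤ 1 / (lo H e : ℝ) := one_div_le_one_div_of_le (by linarith) hh
    have h6 : (1 / (lo H e : ℝ) - 1 / (hi H e : ℝ)) * (2 * E / (vd H (hi H e) : ℝ)) ^ 2 ≤
        1 * (2 * E) ^ 2 :=
      mul_le_mul (by linarith) h2 (sq_nonneg _) zero_le_one
    linarith
  have h2 := Finset.sum_le_sum h1
  rw [Finset.sum_const, nsmul_eq_mul, ← hEdef] at h2
  have h3 : ∑ v : V, ((inc H v).card : ℝ) * ((inc H v).card - 1) ≤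
      ∑ v : V, ((inc H v).card : ℝ) * (E - 1) := by
    apply Finset.sum_le_sum
    intro v _
    apply mul_le_mul_of_nonneg_left _ (Nat.cast_nonneg _)
    have : ((inc H v).card : ℝ) ≤ E := by rw [hEdef]; exact_mod_cast inc_le H v
    linarith
  rw [← Finset.sum_mul, sum_deg_real, ← hEdef] at h3
  nlinarith

/-- The main theorem. -/
theorem main_small (H : SimpleGraph V) (hE : 0 < (edges H).card) {p q : ℝ} (hp0 : 0 < p)
    (hpq : p ≤ q) (hq1 : q < 1)
    (hsm : CH H * ((Real.log q - Real.log (1 - q)) - (Real.log p - Real.log (1 - p))) < 1 ∨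
      2 * (edges H).card * (CH H * Real.log (1 / q) + 1 - q) <
        q * ∑ v : V, ((1 / q) ^ (inc H v).card - 1)) :
    UT H p q ≤ Ip p q ∧ (UT H p q = Ip p q ↔ HubC H p q) ∧
    (UT H p q = Ip p q → ∀ W : Graphon, Feasible H q W → cost p W = UT H p q →
      ∀ᵐ z : unitInterval × unitInterval, W.toFun z.1 z.2 = q) := by
  have hq0 : 0 < q := hp0.trans_le hpq
  have hE' : (0 : ℝ) < (edges H).card := by exact_mod_cast hE
  have hle := UT_le H hp0 hpq hq1
  have hnec : UT H p q = Ip p q → HubC H p q := by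
    intro hRS r hr0 hr1
    have h := necessary H hE hp0 hpq hq1 hRS hr0 hr1
    rw [div_mul_eq_mul_div, div_le_iff₀ (by positivity)]
    linarith
  have hlamC : HubC H p q →
      CH H * ((Real.log q - Real.log (1 - q)) - (Real.log p - Real.log (1 - p))) < 1 := by
    intro hub
    rcases hsm with h | h
    · exact h
    · have h1 := lam_small H hE hp0 hpq hq1 hub
      set lam := (Real.log q - Real.log (1 - q)) - (Real.log p - Real.log (1 - p)) with hlamdef
      set S := ∑ v : V, ((1 / q) ^ (inc H v).card - 1) with hS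
      have hC0 := CH_nonneg H
      have h2 := mul_le_mul_of_nonneg_left h1 hC0
      have hl : 0 ≤ Real.log (1 / q) := by
        apply Real.log_nonneg
        rw [le_div_iff₀ hq0]; linarith
      have h3 : 0 < q * S - 2 * (edges H).card * (1 - q) := by
        have h5 : 0 ≤ 2 * ((edges H).card : ℝ) * (CH H * Real.log (1 / q)) :=
          mul_nonneg (by linarith) (mul_nonneg hC0 hl)
        nlinarith
      by_contra hcn
      push Not at hcn
      have h4 := mul_le_mul_of_nonneg_right hcn h3.le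
      nlinarith
  have hsuff : HubC H p q → ∀ W : Graphon, Feasible H q W → Ip p q ≤ cost p W ∧
      (cost p W = Ip p q → ∀ᵐ z : unitInterval × unitInterval, W.toFun z.1 z.2 = q) :=
    fun hub W hW => suff_hub H hE hp0 hpq hq1 hub (hlamC hub) W hW
  refine ⟨hle, ⟨hnec, fun hub => ?_⟩, fun hRS W hW hc =>
    (hsuff (hnec hRS) W hW).2 (hc.trans hRS)⟩
  apply IsLeast.csInf_eq
  refine ⟨⟨constGraphon q hq0.le hq1.le, const_feasible H hq0.le hq1.le,
    (cost_const hq0.le hq1.le).symm⟩, ?_⟩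
  rintro c ⟨W, hW, rfl⟩
  exact (hsuff hub W hW).1

end Pool.Agent.H959.UG
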