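import Mathlib
import Pool.Agent.H959.UG.Edge2
import Pool.Agent.H959.UG.Fin

/-!
MP_bbc525_pr (helper959): for density close to `1` the hub condition is sufficient for replica
symmetry, for every graph.
-/

set_option autoImplicit false
set_option linter.unusedSectionVars false

namespace Pool.Agent.H959.UG

open MeasureTheory Finset Function
open Pool.Agent.H767R5.UT Pool.Agent.H959.UT

/-- `E (W/q - 1)_+` -/
noncomputable def UW (W : Graphon) (q : ℝ) : ℝ :=
  ∫ z : unitInterval × unitInterval, max (W.toFun z.1 z.2 / q - 1) 0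

/-- `E (W/q - 1)_+^2` -/
noncomputable def QW (W : Graphon) (q : ℝ) : ℝ :=
  ∫ z : unitInterval × unitInterval, (max (W.toFun z.1 z.2 / q - 1) 0) ^ 2

theorem cU (q : ℝ) : Continuous (fun w : ℝ => max (w / q - 1) 0) := by fun_prop
theorem cQ (q : ℝ) : Continuous (fun w : ℝ => (max (w / q - 1) 0) ^ 2) := by fun_prop

theorem UW_nonneg (W : Graphon) (q : ℝ) : 0 ≤ UW W q :=
  integral_nonneg (fun _ => le_max_right _ _)

theorem UW_sq (W : Graphon) (q : ℝ) : UW W q ^ 2 ≤ QW W q := by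
  unfold UW QW
  have i1 := int_cont W (cU q)
  have i2 := int_cont W (cQ q)
  set A := ∫ z : unitInterval × unitInterval, max (W.toFun z.1 z.2 / q - 1) 0 with hA
  have h : 0 ≤ ∫ z : unitInterval × unitInterval, (max (W.toFun z.1 z.2 / q - 1) 0 - A) ^ 2 :=
    integral_nonneg (fun _ => sq_nonneg _)
  have e : ∀ z : unitInterval × unitInterval, (max (W.toFun z.1 z.2 / q - 1) 0 - A) ^ 2 =
      ((max (W.toFun z.1 z.2 / q - 1) 0) ^ 2 - 2 * A * max (W.toFun z.1 z.2 / q - 1) 0) +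
        A ^ 2 := by
    intro z; ring
  simp only [e] at h
  have j1 : Integrable (fun z : unitInterval × unitInterval =>
      2 * A * max (W.toFun z.1 z.2 / q - 1) 0) volume := i1.const_mul _
  have j3 : Integrable (fun z : unitInterval × unitInterval =>
      (max (W.toFun z.1 z.2 / q - 1) 0) ^ 2 - 2 * A * max (W.toFun z.1 z.2 / q - 1) 0) volume :=
    i2.sub j1
  rw [integral_add j3 (integrable_const _), integral_sub i2 j1, integral_const_mul, ← hA] at h
  simp at h
  nlinarith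

theorem edge_W2 (W : Graphon) {q : ℝ} (hq0 : 0 < q) (hq1 : q ≤ 1) {a b : ℕ} (hb : 1 ≤ b)
    (hab : b ≤ a) :
    (1 / (a : ℝ)) * (Zm W b a / q ^ a - 1) ≤
      (1 / 2) * ((PW W q a - 1) / a + (PW W q b - 1) / b)
      + (((a : ℝ) - b) / (2 * a * b)) * (Zm W b a / q ^ a - 1) ^ 2 +
      (((a : ℝ) - b) ^ 2 * (1 / q) ^ (a + b) / b) * (UW W q * AW W q) := by
  have h := edge_ineq2 (fun x y => W.toFun x y / q) (W.measurable.div_const q)
    (fun x y => by rw [W.symm x y]) (1 / q) (by rw [le_div_iff₀ hq0]; linarith)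
    (fun x y => div_nonneg (W.nonneg x y) hq0.le)
    (fun x y => div_le_div_of_nonneg_right (W.le_one x y) hq0.le) hb hab
  rw [Zm_div W hq0 hb a, iter W (cP q a), iter W (cP q b), iter W (cU q), iter W (cA q)] at h
  exact h

theorem Z_low (W : Graphon) {q : ℝ} (hq0 : 0 < q) {a b : ℕ} (hb : 1 ≤ b) :
    -((a : ℝ) * AW W q) ≤ Zm W b a / q ^ a - 1 := by
  have h := Z_lower (fun x y => W.toFun x y / q) (W.measurable.div_const q) (1 / q)
    (fun x y => div_nonneg (W.nonneg x y) hq0.le)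
    (fun x y => div_le_div_of_nonneg_right (W.le_one x y) hq0.le) (a := a) hb
  rw [Zm_div W hq0 hb a, iter W (cA q)] at h
  exact h

theorem Z_up (W : Graphon) {q : ℝ} (hq0 : 0 < q) (hq1 : q ≤ 1) {a b : ℕ} (hb : 1 ≤ b)
    (hab : b ≤ a) :
    Zm W b a / q ^ a - 1 ≤ (a : ℝ) * (1 / q) ^ a * UW W q - AW W q := by
  have h := Z_upper (fun x y => W.toFun x y / q) (W.measurable.div_const q) (1 / q)
    (by rw [le_div_iff₀ hq0]; linarith)
    (fun x y => div_nonneg (W.nonneg x y) hq0.le)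
    (fun x y => div_le_div_of_nonneg_right (W.le_one x y) hq0.le) hb hab
  rw [Zm_div W hq0 hb a, iter W (cA q), iter W (cU q)] at h
  exact h

variable {V : Type} [Fintype V] [DecidableEq V]

theorem hi_le_D (H : SimpleGraph V) {D : ℕ} (hD : ∀ v, (inc H v).card ≤ D) (e : Sym2 V) :
    hi H e ≤ D := by
  obtain ⟨v, hv⟩ := hi_deg H e
  rw [← hv]; exact hD v

/-- `A ≤ D q^{-D} p₊` -/
theorem A_le (H : SimpleGraph V) (hE : 0 < (edges H).card) {D : ℕ}
    (hD : ∀ v, (inc H v).card ≤ D) (W : Graphon) {q : ℝ} (hq0 : 0 < q) (hq1 : q ≤ 1)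
    (hW : q ^ (edges H).card ≤ homDensity H W) :
    AW W q ≤ D * (1 / q) ^ D * UW W q := by
  have h := lin_constraint H W hq0 hW
  have hM1 : 1 ≤ 1 / q := by rw [le_div_iff₀ hq0]; linarith
  have hU := UW_nonneg W q
  have hA := AW_nonneg W q
  have hE' : (0 : ℝ) < (edges H).card := by exact_mod_cast hE
  obtain ⟨e0, he0⟩ := Finset.card_pos.mp hE
  have hD0 : (0 : ℝ) < D := by
    have := (hi_pos H he0).trans (hi_le_D H hD e0)
    exact_mod_cast this
  have h1 : ∀ e ∈ edges H, (1 / (hi H e : ℝ)) * (Zm W (lo H e) (hi H e) / q ^ (hi H e) - 1) ≤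
      (1 / q) ^ D * UW W q - AW W q / D := by
    intro e he
    have ha : (0 : ℝ) < hi H e := by exact_mod_cast hi_pos H he
    have haD : (hi H e : ℝ) ≤ D := by exact_mod_cast hi_le_D H hD e
    have h2 := Z_up W hq0 hq1 (lo_pos H he) (lo_le_hi H e)
    have h3 := mul_le_mul_of_nonneg_left h2 (by positivity : 0 ≤ 1 / (hi H e : ℝ))
    have h4 : (1 / (hi H e : ℝ)) * ((hi H e : ℝ) * (1 / q) ^ (hi H e) * UW W q - AW W q) =
        (1 / q) ^ (hi H e) * UW W q - AW W q / hi H e := by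
      field_simp
    rw [h4] at h3
    have h5 : (1 / q) ^ (hi H e) * UW W q ≤ (1 / q) ^ D * UW W q :=
      mul_le_mul_of_nonneg_right (pow_le_pow_right₀ hM1 (hi_le_D H hD e)) hU
    have h6 : AW W q / D ≤ AW W q / hi H e := div_le_div_of_nonneg_left hA ha haD
    linarith
  have h2 := h.trans (Finset.sum_le_sum h1)
  rw [Finset.sum_const, nsmul_eq_mul] at h2
  have h3 : 0 ≤ (1 / q) ^ D * UW W q - AW W q / D := by
    by_contra hcn
    push Not at hcn
    have := mul_neg_of_pos_of_neg hE' hcn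
    linarith
  have h4 : AW W q / D ≤ (1 / q) ^ D * UW W q := by linarith
  rw [div_le_iff₀ hD0] at h4
  linarith

/-- The constraint, second form. -/
theorem constraint2 (H : SimpleGraph V) (hE : 0 < (edges H).card) {D : ℕ}
    (hD : ∀ v, (inc H v).card ≤ D) (W : Graphon) {q : ℝ} (hq0 : 0 < q) (hq1 : q ≤ 1)
    (hW : q ^ (edges H).card ≤ homDensity H W) :
    0 ≤ ∑ v : V, (PW W q (inc H v).card - 1) +
      (edges H).card * (3 * (D : ℝ) ^ 4 * (1 / q) ^ (3 * D) * UW W q ^ 2) := by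
  have h := lin_constraint H W hq0 hW
  have hAU := A_le H hE hD W hq0 hq1 hW
  have hM1 : 1 ≤ 1 / q := by rw [le_div_iff₀ hq0]; linarith
  have hU := UW_nonneg W q
  have hA := AW_nonneg W q
  have h1 : ∀ e ∈ edges H, (1 / (hi H e : ℝ)) * (Zm W (lo H e) (hi H e) / q ^ (hi H e) - 1) ≤
      (1 / 2) * ((PW W q (hi H e) - 1) / (hi H e : ℝ) + (PW W q (lo H e) - 1) / (lo H e : ℝ)) +
      (1 / 2) * (3 * (D : ℝ) ^ 4 * (1 / q) ^ (3 * D) * UW W q ^ 2) := by
    intro e he
    have hb1 : (1 : ℝ) ≤ lo H e := by exact_mod_cast lo_pos H he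
    have hab : (lo H e : ℝ) ≤ hi H e := by exact_mod_cast lo_le_hi H e
    have haD : (hi H e : ℝ) ≤ D := by exact_mod_cast hi_le_D H hD e
    have haD' : hi H e ≤ D := hi_le_D H hD e
    have hbD' : lo H e ≤ D := (lo_le_hi H e).trans haD'
    have h2 := edge_W2 W hq0 hq1 (lo_pos H he) (lo_le_hi H e)
    have h3 := Z_low W hq0 (a := hi H e) (lo_pos H he)
    have h4 := Z_up W hq0 hq1 (lo_pos H he) (lo_le_hi H e)
    set a : ℝ := (hi H e : ℝ) with ha
    set b : ℝ := (lo H e : ℝ) with hb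
    set β := Zm W (lo H e) (hi H e) / q ^ (hi H e) - 1 with hβ
    set M := 1 / q with hM
    set u := UW W q with hu
    have hD1 : (1 : ℝ) ≤ D := by linarith
    -- `|β| ≤ D^2 M^D u`
    have hMD : (0 : ℝ) ≤ M ^ D := by positivity
    have k1 : β ≤ D ^ 2 * M ^ D * u := by
      have k2 : a * M ^ (hi H e) ≤ D ^ 2 * M ^ D := by
        have k3 : M ^ (hi H e) ≤ M ^ D := pow_le_pow_right₀ hM1 haD'
        have k4 : a ≤ (D : ℝ) ^ 2 := by nlinarith
        exact mul_le_mul k4 k3 (by positivity) (by positivity)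
      have k5 := mul_le_mul_of_nonneg_right k2 hU
      linarith
    have k6 : -(D ^ 2 * M ^ D * u) ≤ β := by
      have k7 : a * AW W q ≤ D * (D * M ^ D * u) :=
        mul_le_mul haD hAU hA (by positivity)
      nlinarith
    have k8 : β ^ 2 ≤ (D ^ 2 * M ^ D * u) ^ 2 := sq_le_sq' k6 k1
    have k9 : (a - b) / (2 * a * b) ≤ 1 / 2 := by
      have ha0 : 0 < a := by linarith
      have hb0 : 0 < b := by linarith
      rw [div_le_div_iff₀ (mul_pos (mul_pos two_pos ha0) hb0) two_pos]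
      nlinarith
    have k10 : (a - b) / (2 * a * b) * β ^ 2 ≤ 1 / 2 * (D ^ 2 * M ^ D * u) ^ 2 :=
      mul_le_mul k9 k8 (sq_nonneg _) (by norm_num)
    have k11 : (a - b) ^ 2 * M ^ (hi H e + lo H e) / b ≤ D ^ 2 * M ^ (2 * D) := by
      have l1 : (a - b) ^ 2 ≤ (D : ℝ) ^ 2 := pow_le_pow_left₀ (by linarith) (by linarith) 2
      have l2 : M ^ (hi H e + lo H e) ≤ M ^ (2 * D) := pow_le_pow_right₀ hM1 (by omega)
      have l3 : (a - b) ^ 2 * M ^ (hi H e + lo H e) ≤ D ^ 2 * M ^ (2 * D) :=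
        mul_le_mul l1 l2 (by positivity) (by positivity)
      exact (div_le_self (by positivity) hb1).trans l3
    have k12 : u * AW W q ≤ D * M ^ D * u ^ 2 := by
      have := mul_le_mul_of_nonneg_left hAU hU
      nlinarith
    have k13 : (a - b) ^ 2 * M ^ (hi H e + lo H e) / b * (u * AW W q) ≤
        D ^ 2 * M ^ (2 * D) * (D * M ^ D * u ^ 2) :=
      mul_le_mul k11 k12 (mul_nonneg hU hA) (by positivity)
    have k14 : (D : ℝ) ^ 2 * M ^ (2 * D) * (D * M ^ D * u ^ 2) ≤ D ^ 4 * M ^ (3 * D) * u ^ 2 := by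
      have l1 : (D : ℝ) ^ 2 * M ^ (2 * D) * (D * M ^ D * u ^ 2) =
          D ^ 3 * (M ^ (3 * D) * u ^ 2) := by ring
      have l2 : (D : ℝ) ^ 3 ≤ D ^ 4 := pow_le_pow_right₀ hD1 (by norm_num)
      have l3 := mul_le_mul_of_nonneg_right l2 (by positivity : 0 ≤ M ^ (3 * D) * u ^ 2)
      rw [l1]
      linarith
    have k15 : (1 : ℝ) / 2 * (D ^ 2 * M ^ D * u) ^ 2 ≤ 1 / 2 * (D ^ 4 * M ^ (3 * D) * u ^ 2) := by
      have l1 : ((D : ℝ) ^ 2 * M ^ D * u) ^ 2 = D ^ 4 * u ^ 2 * M ^ (2 * D) := by ring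
      have l2 : M ^ (2 * D) ≤ M ^ (3 * D) := pow_le_pow_right₀ hM1 (by omega)
      have l3 := mul_le_mul_of_nonneg_left l2 (by positivity : 0 ≤ (D : ℝ) ^ 4 * u ^ 2)
      rw [l1]
      linarith
    linarith
  have h2 := h.trans (Finset.sum_le_sum h1)
  rw [Finset.sum_add_distrib, Finset.sum_const, nsmul_eq_mul, ← Finset.mul_sum,
    handshake H (fun d => PW W q d - 1) (by simp [PW_zero])] at h2
  linarith

theorem kl_upper {r q : ℝ} (hr : r ≤ 1) (hrq : q ≤ r) (hq0 : 0 < q) (hq1 : q < 1) :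
    (r - q) ^ 2 / (2 * (1 - q)) ≤ Ip q r := by
  have h := kl_lower (r := 1 - r) (q := 1 - q) (by linarith) (by linarith) (by linarith)
    (by linarith)
  unfold Ip
  have e1 : (1 - q - (1 - r)) ^ 2 = (r - q) ^ 2 := by ring
  have e2 : 1 - (1 - r) = r := by ring
  have e3 : 1 - (1 - q) = q := by ring
  rw [e1, e2, e3] at h
  linarith

theorem gam_upper2 {x M : ℝ} (h1 : 1 ≤ x) (hM : x ≤ M) (d : ℕ) :
    x ^ d - 1 - d * (x - 1) ≤ ((d : ℝ) * (d - 1)) / 2 * M ^ d * (x - 1) ^ 2 := by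
  induction d with
  | zero => simp
  | succ d ih =>
    rw [gam_succ]
    have h0 : 0 ≤ x := by linarith
    have hM0 : 0 ≤ M := by linarith
    have hM1 : 1 ≤ M := by linarith
    have h2 := gam_nonneg h0 d
    have h3 : x * (x ^ d - 1 - d * (x - 1)) ≤
        M * (((d : ℝ) * (d - 1)) / 2 * M ^ d * (x - 1) ^ 2) :=
      mul_le_mul hM ih h2 hM0
    have h4 : (1 : ℝ) ≤ M ^ (d + 1) := one_le_pow₀ hM1
    have h5 : (d : ℝ) * (1 - x) ^ 2 ≤ d * (x - 1) ^ 2 * M ^ (d + 1) := by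
      have h6 : 0 ≤ (d : ℝ) * (x - 1) ^ 2 := by positivity
      nlinarith
    have h7 : M * (((d : ℝ) * (d - 1)) / 2 * M ^ d * (x - 1) ^ 2) =
        ((d : ℝ) * (d - 1)) / 2 * M ^ (d + 1) * (x - 1) ^ 2 := by ring
    push_cast
    nlinarith

/-- Pointwise improvement of the hub condition above `q`. -/
theorem pointwise2 (H : SimpleGraph V) (hE : 0 < (edges H).card) {D : ℕ}
    (hD : ∀ v, (inc H v).card ≤ D) {p q : ℝ} (hp0 : 0 < p)
    (hpq : p < q) (hq1 : q < 1) (hub : HubC H p q) {r : ℝ} (hr0 : 0 ≤ r) (hr1 : r ≤ 1) :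
    q * ((Real.log q - Real.log (1 - q)) - (Real.log p - Real.log (1 - p))) /
      (2 * (edges H).card) * ∑ v : V, ((r / q) ^ (inc H v).card - 1) +
      (q ^ 2 / (2 * (1 - q)) -
        q * ((Real.log q - Real.log (1 - q)) - (Real.log p - Real.log (1 - p))) / 2 *
        (((D : ℝ) - 1) * (1 / q) ^ D)) * (max (r / q - 1) 0) ^ 2 ≤ Ip p r - Ip p q := by
  have hq0 : 0 < q := hp0.trans hpq
  have hp1 : p < 1 := hpq.trans hq1
  rcases le_total r q with h | h
  · have h1 : r / q - 1 ≤ 0 := by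
      have : r / q ≤ 1 := by rw [div_le_iff₀ hq0]; linarith
      linarith
    rw [max_eq_right h1]
    have := hub r hr0 hr1
    linarith
  · have hx1 : 1 ≤ r / q := by rw [le_div_iff₀ hq0]; linarith
    have hxM : r / q ≤ 1 / q := div_le_div_of_nonneg_right hr1 hq0.le
    have hM1 : 1 ≤ 1 / q := hx1.trans hxM
    rw [max_eq_left (by linarith)]
    have hexp := Ip_expand hp0 hp1 hq0 hq1 r
    have hlam := lam_pos hp0 hpq hq1
    set lam := (Real.log q - Real.log (1 - q)) - (Real.log p - Real.log (1 - p)) with hlamdef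
    have hkl := kl_upper hr1 h hq0 hq1
    set x := r / q with hx
    have hrx : r = q * x := by rw [hx]; exact (mul_div_cancel₀ r hq0.ne').symm
    have hE' : (0 : ℝ) < (edges H).card := by exact_mod_cast hE
    set E : ℝ := ((edges H).card : ℝ) with hEdef
    have hs : ∑ v : V, (x ^ (inc H v).card - 1 - (inc H v).card * (x - 1)) ≤
        E * (((D : ℝ) - 1) * (1 / q) ^ D * (x - 1) ^ 2) := by
      have h1 : ∀ v ∈ (Finset.univ : Finset V),
          x ^ (inc H v).card - 1 - (inc H v).card * (x - 1) ≤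
          ((inc H v).card : ℝ) * ((((D : ℝ) - 1) * (1 / q) ^ D * (x - 1) ^ 2) / 2) := by
        intro v _
        refine (gam_upper2 hx1 hxM _).trans ?_
        rcases Nat.eq_zero_or_pos (inc H v).card with h0 | h0
        · rw [h0]; simp
        · have l1 : (1 : ℝ) ≤ (inc H v).card := by exact_mod_cast h0
          have l2 : ((inc H v).card : ℝ) ≤ D := by exact_mod_cast hD v
          have l3 : (1 / q) ^ (inc H v).card ≤ (1 / q) ^ D := pow_le_pow_right₀ hM1 (hD v)
          have l4 : (((inc H v).card : ℝ) - 1) * (1 / q) ^ (inc H v).card ≤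
              ((D : ℝ) - 1) * (1 / q) ^ D :=
            mul_le_mul (by linarith) l3 (by positivity) (by linarith)
          have l5 := mul_le_mul_of_nonneg_left l4
            (div_nonneg (mul_nonneg (Nat.cast_nonneg _) (sq_nonneg _)) two_pos.le :
              0 ≤ ((inc H v).card : ℝ) * (x - 1) ^ 2 / 2)
          nlinarith
      refine (Finset.sum_le_sum h1).trans (le_of_eq ?_)
      rw [← Finset.sum_mul, sum_deg_real]
      ring
    rw [sum_pow_gam, hexp]
    set S := ∑ v : V, (x ^ (inc H v).card - 1 - (inc H v).card * (x - 1)) with hS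
    have h2 : q * lam / (2 * E) * S ≤
        q * lam / (2 * E) * (E * (((D : ℝ) - 1) * (1 / q) ^ D * (x - 1) ^ 2)) :=
      mul_le_mul_of_nonneg_left hs (div_nonneg (mul_nonneg hq0.le hlam.le) (by linarith))
    rw [alg1 q lam _ S x hE']
    have e3 : q * lam / (2 * E) * (E * (((D : ℝ) - 1) * (1 / q) ^ D * (x - 1) ^ 2)) =
        q * lam / 2 * (((D : ℝ) - 1) * (1 / q) ^ D) * (x - 1) ^ 2 := by
      field_simp
    rw [e3] at h2
    have e4 : (r - q) * lam = q * lam * (x - 1) := by rw [hrx]; ring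
    have e5 : (r - q) ^ 2 / (2 * (1 - q)) = q ^ 2 / (2 * (1 - q)) * (x - 1) ^ 2 := by
      rw [hrx]; ring
    rw [e4]
    rw [e5] at hkl
    linarith

end Pool.Agent.H959.UG
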