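import Mathlib
import Pool.Agent.H959.UG.Near

/-!
MP_bbc525_pr (helper959): for density close to `0` or `1`, and for `p` close to `q`, the hub condition
is necessary and sufficient for replica symmetry, for every graph.
-/

set_option autoImplicit false
set_option linter.unusedSectionVars false

namespace Pool.Agent.H959.UG

open MeasureTheory Finset Function Filter Topology
open Pool.Agent.H767R5.UT Pool.Agent.H959.UT

variable {V : Type} [Fintype V] [DecidableEq V]

/-- The integrated form. -/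
theorem integrated2 (H : SimpleGraph V) (hE : 0 < (edges H).card) {D : ℕ}
    (hD : ∀ v, (inc H v).card ≤ D) {p q : ℝ} (hp0 : 0 < p)
    (hpq : p < q) (hq1 : q < 1) (hub : HubC H p q) (W : Graphon) :
    q * ((Real.log q - Real.log (1 - q)) - (Real.log p - Real.log (1 - p))) /
      (2 * (edges H).card) * ∑ v : V, (PW W q (inc H v).card - 1) +
      (q ^ 2 / (2 * (1 - q)) -
        q * ((Real.log q - Real.log (1 - q)) - (Real.log p - Real.log (1 - p))) / 2 *
        (((D : ℝ) - 1) * (1 / q) ^ D)) * QW W q ≤ cost p W - Ip p q := by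
  have hq0 : 0 < q := hp0.trans hpq
  have hp1 : p < 1 := hpq.trans hq1
  set lam := (Real.log q - Real.log (1 - q)) - (Real.log p - Real.log (1 - p)) with hlamdef
  set c1 := q * lam / (2 * (edges H).card) with hc1
  set c2 := q ^ 2 / (2 * (1 - q)) - q * lam / 2 * (((D : ℝ) - 1) * (1 / q) ^ D) with hc2
  have i1 : ∀ v : V, Integrable (fun z : unitInterval × unitInterval =>
      (W.toFun z.1 z.2 / q) ^ (inc H v).card - 1) volume := fun v =>
    (int_cont W (cP q _)).sub (integrable_const _)
  have i2 : Integrable (fun z : unitInterval × unitInterval =>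
      ∑ v : V, ((W.toFun z.1 z.2 / q) ^ (inc H v).card - 1)) volume :=
    integrable_finsetSum _ (fun v _ => i1 v)
  have i3 : Integrable (fun z : unitInterval × unitInterval =>
      c1 * ∑ v : V, ((W.toFun z.1 z.2 / q) ^ (inc H v).card - 1)) volume := i2.const_mul _
  have i4 : Integrable (fun z : unitInterval × unitInterval =>
      c2 * (max (W.toFun z.1 z.2 / q - 1) 0) ^ 2) volume := (int_cont W (cQ q)).const_mul _
  have i5 : Integrable (fun z : unitInterval × unitInterval =>
      c1 * ∑ v : V, ((W.toFun z.1 z.2 / q) ^ (inc H v).card - 1) +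
      c2 * (max (W.toFun z.1 z.2 / q - 1) 0) ^ 2) volume := i3.add i4
  have i6 : Integrable (fun z : unitInterval × unitInterval =>
      Ip p (W.toFun z.1 z.2) - Ip p q) volume :=
    (cost_integrable hp0 hp1 W).sub (integrable_const _)
  have h := integral_mono i5 i6 (fun z => pointwise2 H hE hD hp0 hpq hq1 hub (W.nonneg z.1 z.2)
    (W.le_one z.1 z.2))
  have e1 : ∫ z : unitInterval × unitInterval,
      (c1 * ∑ v : V, ((W.toFun z.1 z.2 / q) ^ (inc H v).card - 1) +
      c2 * (max (W.toFun z.1 z.2 / q - 1) 0) ^ 2) =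
      c1 * ∑ v : V, (PW W q (inc H v).card - 1) + c2 * QW W q := by
    rw [integral_add i3 i4, integral_const_mul, integral_const_mul,
      integral_finsetSum _ (fun v _ => i1 v)]
    have e3 : ∀ v : V, ∫ z : unitInterval × unitInterval,
        ((W.toFun z.1 z.2 / q) ^ (inc H v).card - 1) = PW W q (inc H v).card - 1 := by
      intro v
      rw [integral_sub (int_cont W (cP q _)) (integrable_const _)]
      simp [PW]
    simp only [e3]
    rfl
  have e2 : ∫ z : unitInterval × unitInterval, (Ip p (W.toFun z.1 z.2) - Ip p q) =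
      cost p W - Ip p q := by
    rw [integral_sub (cost_integrable hp0 hp1 W) (integrable_const _)]
    simp [cost]
  rw [e1, e2] at h
  exact h

/-- Under the hub condition and `4 D^4 (1-q) λ < q^{3D+1}` a feasible `W` of cost at most `I_p(q)` has
edge density at least `q`. -/
theorem dense_of_cost2 (H : SimpleGraph V) (hE : 0 < (edges H).card) {D : ℕ}
    (hD : ∀ v, (inc H v).card ≤ D) {p q : ℝ} (hp0 : 0 < p)
    (hpq : p < q) (hq1 : q < 1) (hub : HubC H p q)
    (hC : 4 * (D : ℝ) ^ 4 * (1 - q) *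
      ((Real.log q - Real.log (1 - q)) - (Real.log p - Real.log (1 - p))) < q ^ (3 * D + 1))
    (W : Graphon) (hW : q ^ (edges H).card ≤ homDensity H W) (hc : cost p W ≤ Ip p q) :
    q ≤ ∫ x, W.deg x := by
  have hq0 : 0 < q := hp0.trans hpq
  have hlam := lam_pos hp0 hpq hq1
  have hint := integrated2 H hE hD hp0 hpq hq1 hub W
  have hcon := constraint2 H hE hD W hq0 hq1.le hW
  have hAU := A_le H hE hD W hq0 hq1.le hW
  set lam := (Real.log q - Real.log (1 - q)) - (Real.log p - Real.log (1 - p)) with hlamdef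
  have hE' : (0 : ℝ) < (edges H).card := by exact_mod_cast hE
  have hδA : 1 - PW W q 1 ≤ AW W q := delta_le W q
  have hU0 := UW_nonneg W q
  have hUQ := UW_sq W q
  obtain ⟨e0, he0⟩ := Finset.card_pos.mp hE
  have hD1 : (1 : ℝ) ≤ D := by
    have := (hi_pos H he0).trans (hi_le_D H hD e0)
    exact_mod_cast this
  have hM1 : 1 ≤ 1 / q := by rw [le_div_iff₀ hq0]; linarith
  set P := ∑ v : V, (PW W q (inc H v).card - 1) with hP
  set u := UW W q with hu
  have hMq : (1 / q) ^ (3 * D) * q ^ (3 * D) = 1 := by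
    rw [← mul_pow, one_div_mul_cancel hq0.ne', one_pow]
  have hM3 : 0 < (1 / q) ^ (3 * D) := by positivity
  -- the positivity of the coefficient
  have hcoef : q * lam / 2 * (4 * (D : ℝ) ^ 4 * (1 / q) ^ (3 * D)) < q ^ 2 / (2 * (1 - q)) := by
    have h1 := mul_lt_mul_of_pos_right hC hM3
    have e1 : q ^ (3 * D + 1) * (1 / q) ^ (3 * D) = q := by
      rw [pow_succ]
      calc q ^ (3 * D) * q * (1 / q) ^ (3 * D) = q * ((1 / q) ^ (3 * D) * q ^ (3 * D)) := by ring
        _ = q := by rw [hMq, mul_one]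
    rw [e1] at h1
    rw [lt_div_iff₀ (by linarith)]
    nlinarith
  have hDM : ((D : ℝ) - 1) * (1 / q) ^ D ≤ (D : ℝ) ^ 4 * (1 / q) ^ (3 * D) := by
    apply mul_le_mul
    · have : (D : ℝ) ^ 1 ≤ (D : ℝ) ^ 4 := pow_le_pow_right₀ hD1 (by norm_num)
      rw [pow_one] at this
      linarith
    · exact pow_le_pow_right₀ hM1 (by omega)
    · positivity
    · positivity
  have hql : 0 < q * lam / 2 := div_pos (mul_pos hq0 hlam) two_pos
  have hκ : q * lam / 2 * (3 * (D : ℝ) ^ 4 * (1 / q) ^ (3 * D)) <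
      q ^ 2 / (2 * (1 - q)) - q * lam / 2 * (((D : ℝ) - 1) * (1 / q) ^ D) := by
    have h1 := mul_le_mul_of_nonneg_left hDM hql.le
    nlinarith
  set κ := q ^ 2 / (2 * (1 - q)) - q * lam / 2 * (((D : ℝ) - 1) * (1 / q) ^ D) with hκdef
  set T := 3 * (D : ℝ) ^ 4 * (1 / q) ^ (3 * D) with hT
  have hT0 : 0 ≤ T := by positivity
  have hPT : -((edges H).card * (T * u ^ 2)) ≤ P := by linarith
  have hk : 0 ≤ q * lam / (2 * (edges H).card) :=
    div_nonneg (mul_nonneg hq0.le hlam.le) (by linarith)
  have h8 := mul_le_mul_of_nonneg_left hPT hk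
  have e8 : q * lam / (2 * (edges H).card) * -((edges H).card * (T * u ^ 2)) =
      -(q * lam / 2 * T * u ^ 2) := by
    field_simp
  rw [e8] at h8
  have hκ0 : 0 < κ := lt_of_le_of_lt (mul_nonneg hql.le hT0) hκ
  have h9 : κ * u ^ 2 ≤ κ * QW W q := mul_le_mul_of_nonneg_left hUQ hκ0.le
  have h10 : (κ - q * lam / 2 * T) * u ^ 2 ≤ 0 := by nlinarith
  have hu2 : u ^ 2 ≤ 0 := by
    by_contra hcn
    push Not at hcn
    have := mul_pos (sub_pos.mpr hκ) hcn
    linarith
  have hu0 : u = 0 := by
    rcases hU0.eq_or_lt with h | h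
    · exact h.symm
    · exfalso
      have h12 : 0 < u ^ 2 := by rw [pow_two]; exact mul_pos h h
      linarith
  rw [hu0, mul_zero] at hAU
  have h11 : 1 ≤ PW W q 1 := by linarith
  rw [PW_one, le_div_iff₀ hq0] at h11
  linarith

theorem suff_hub2 (H : SimpleGraph V) (hE : 0 < (edges H).card) {D : ℕ}
    (hD : ∀ v, (inc H v).card ≤ D) {p q : ℝ} (hp0 : 0 < p)
    (hpq : p ≤ q) (hq1 : q < 1) (hub : HubC H p q)
    (hC : 4 * (D : ℝ) ^ 4 * (1 - q) *
      ((Real.log q - Real.log (1 - q)) - (Real.log p - Real.log (1 - p))) < q ^ (3 * D + 1))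
    (W : Graphon) (hW : Feasible H q W) :
    Ip p q ≤ cost p W ∧ (cost p W = Ip p q →
      ∀ᵐ z : unitInterval × unitInterval, W.toFun z.1 z.2 = q) := by
  have hW' : q ^ (edges H).card ≤ homDensity H W := by rw [edges_card]; exact hW
  rcases hpq.eq_or_lt with h | h
  · subst h
    refine suff_hub H hE hp0 le_rfl hq1 hub ?_ W hW
    rw [sub_self, mul_zero]
    exact one_pos
  · rcases le_or_gt (cost p W) (Ip p q) with hc | hc
    · exact suff_dense W hp0 hpq hq1 (dense_of_cost2 H hE hD hp0 h hq1 hub hC W hW' hc)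
    · exact ⟨hc.le, fun h2 => absurd h2 hc.ne'⟩

/-- `∑_v (d_v - 1)_+` -/
noncomputable def mH (H : SimpleGraph V) : ℝ := ∑ v : V, (((inc H v).card - 1 : ℕ) : ℝ)

/-- The hub condition bounds `λ` for density near `1`. -/
theorem lam_near (H : SimpleGraph V) (hE : 0 < (edges H).card) {p q : ℝ} (hp0 : 0 < p)
    (hpq : p ≤ q) (hq1 : q < 1) (hub : HubC H p q) :
    ((Real.log q - Real.log (1 - q)) - (Real.log p - Real.log (1 - p))) * (q * mH H) ≤
      2 * (edges H).card * Real.log (1 / (1 - q)) := by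
  have hq0 : 0 < q := hp0.trans_le hpq
  have hp1 : p < 1 := hpq.trans_lt hq1
  have hE' : (0 : ℝ) < (edges H).card := by exact_mod_cast hE
  have h := hub 0 le_rfl zero_le_one
  rw [sum_pow_gam, Ip_expand hp0 hp1 hq0 hq1 0] at h
  set lam := (Real.log q - Real.log (1 - q)) - (Real.log p - Real.log (1 - p)) with hlamdef
  have hs : ∑ v : V, ((0 / q) ^ (inc H v).card - 1 - (inc H v).card * (0 / q - 1)) = mH H := by
    unfold mH
    apply Finset.sum_congr rfl
    intro v _
    rw [zero_div]
    rcases Nat.eq_zero_or_pos (inc H v).card with h0 | h0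
    · rw [h0]; simp
    · rw [zero_pow (by omega), Nat.cast_sub h0]
      push_cast
      ring
  rw [hs, alg1 q lam _ (mH H) _ hE'] at h
  have e1 : Ip q 0 = Real.log (1 / (1 - q)) := by
    unfold Ip; simp
  rw [e1, zero_div] at h
  have h3 : q * lam / (2 * (edges H).card) * mH H ≤ Real.log (1 / (1 - q)) := by linarith
  rw [div_mul_eq_mul_div, div_le_iff₀ (by linarith)] at h3
  linarith

/-- The main theorem. -/
theorem main_all (H : SimpleGraph V) (hE : 0 < (edges H).card) {p q : ℝ} (hp0 : 0 < p)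
    (hpq : p ≤ q) (hq1 : q < 1) {D : ℕ} (hD : ∀ v, (inc H v).card ≤ D)
    (hsm : CH H * ((Real.log q - Real.log (1 - q)) - (Real.log p - Real.log (1 - p))) < 1 ∨
      2 * (edges H).card * (CH H * Real.log (1 / q) + 1 - q) <
        q * ∑ v : V, ((1 / q) ^ (inc H v).card - 1) ∨
      4 * (D : ℝ) ^ 4 * (1 - q) *
        ((Real.log q - Real.log (1 - q)) - (Real.log p - Real.log (1 - p))) < q ^ (3 * D + 1) ∨
      8 * (edges H).card * (D : ℝ) ^ 4 * (1 - q) * Real.log (1 / (1 - q)) <
        mH H * q ^ (3 * D + 2)) :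
    UT H p q ≤ Ip p q ∧ (UT H p q = Ip p q ↔ HubC H p q) ∧
    (UT H p q = Ip p q → ∀ W : Graphon, Feasible H q W → cost p W = UT H p q →
      ∀ᵐ z : unitInterval × unitInterval, W.toFun z.1 z.2 = q) := by
  have hq0 : 0 < q := hp0.trans_le hpq
  have hE' : (0 : ℝ) < (edges H).card := by exact_mod_cast hE
  rcases hsm with h | h | h
  · exact main_small H hE hp0 hpq hq1 (Or.inl h)
  · exact main_small H hE hp0 hpq hq1 (Or.inr h)
  have hle := UT_le H hp0 hpq hq1
  have hnec : UT H p q = Ip p q → HubC H p q := by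
    intro hRS r hr0 hr1
    have h := necessary H hE hp0 hpq hq1 hRS hr0 hr1
    rw [div_mul_eq_mul_div, div_le_iff₀ (by positivity)]
    linarith
  have hlamC : HubC H p q → 4 * (D : ℝ) ^ 4 * (1 - q) *
        ((Real.log q - Real.log (1 - q)) - (Real.log p - Real.log (1 - p))) < q ^ (3 * D + 1) := by
    intro hub
    rcases h with h | h
    · exact h
    · have h1 := lam_near H hE hp0 hpq hq1 hub
      set lam := (Real.log q - Real.log (1 - q)) - (Real.log p - Real.log (1 - p)) with hlamdef
      have hl : 0 ≤ Real.log (1 / (1 - q)) := by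
        apply Real.log_nonneg
        rw [le_div_iff₀ (by linarith)]; linarith
      have hm : 0 < mH H := by
        by_contra hcn
        push Not at hcn
        have h2 : mH H * q ^ (3 * D + 2) ≤ 0 := mul_nonpos_of_nonpos_of_nonneg hcn (by positivity)
        have h3 : 0 ≤ 8 * (edges H).card * (D : ℝ) ^ 4 * (1 - q) * Real.log (1 / (1 - q)) := by
          have : 0 ≤ 1 - q := by linarith
          exact mul_nonneg (mul_nonneg (by positivity) this) hl
        linarith
      have hqm : 0 < q * mH H := mul_pos hq0 hm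
      have h4 : 0 ≤ 4 * (D : ℝ) ^ 4 * (1 - q) := mul_nonneg (by positivity) (by linarith)
      have h5 := mul_le_mul_of_nonneg_left h1 h4
      by_contra hcn
      push Not at hcn
      have h6 := mul_le_mul_of_nonneg_right hcn hqm.le
      have e6 : q ^ (3 * D + 1) * (q * mH H) = mH H * q ^ (3 * D + 2) := by
        rw [pow_succ q (3 * D + 1)]; ring
      rw [e6] at h6
      nlinarith
  have hsuff : HubC H p q → ∀ W : Graphon, Feasible H q W → Ip p q ≤ cost p W ∧
      (cost p W = Ip p q → ∀ᵐ z : unitInterval × unitInterval, W.toFun z.1 z.2 = q) :=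
    fun hub W hW => suff_hub2 H hE hD hp0 hpq hq1 hub (hlamC hub) W hW
  refine ⟨hle, ⟨hnec, fun hub => ?_⟩, fun hRS W hW hc =>
    (hsuff (hnec hRS) W hW).2 (hc.trans hRS)⟩
  apply IsLeast.csInf_eq
  refine ⟨⟨constGraphon q hq0.le hq1.le, const_feasible H hq0.le hq1.le,
    (cost_const hq0.le hq1.le).symm⟩, ?_⟩
  rintro c ⟨W, hW, rfl⟩
  exact (hsuff hub W hW).1

end Pool.Agent.H959.UG
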