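import Mathlib
import Pool.Agent.H959.UG.All

/-!
MP_bbc525_pr (helper959): existence of the thresholds.
-/

set_option autoImplicit false
set_option linter.unusedSectionVars false

namespace Pool.Agent.H959.UG

open MeasureTheory Finset Function Filter Topology
open Pool.Agent.H767R5.UT Pool.Agent.H959.UT

variable {V : Type} [Fintype V] [DecidableEq V]

theorem CH_zero (H : SimpleGraph V) (h : ∀ v, (inc H v).card ≤ 1) : CH H = 0 := by
  unfold CH
  have h1 : ∑ e ∈ edges H, ((1 / (lo H e : ℝ) - 1 / (hi H e : ℝ)) *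
      (2 * (edges H).card / (vd H (hi H e) : ℝ)) ^ 2 + ((hi H e : ℝ) - lo H e)) = 0 := by
    apply Finset.sum_eq_zero
    intro e he
    have h2 := lo_pos H he
    have h3 := lo_le_hi H e
    have h4 := hi_le_D H h e
    have h5 : lo H e = 1 := by omega
    have h6 : hi H e = 1 := by omega
    rw [h5, h6]
    simp
  have h2 : ∑ v : V, ((inc H v).card : ℝ) * ((inc H v).card - 1) = 0 := by
    apply Finset.sum_eq_zero
    intro v _
    have := h v
    interval_cases h7 : (inc H v).card <;> simp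
  rw [h1, h2]
  simp

theorem near_zero (H : SimpleGraph V) {d : ℕ} (hd : 2 ≤ d) (hv : 0 < vd H d) :
    ∃ δ : ℝ, 0 < δ ∧ ∀ q : ℝ, 0 < q → q < 1 → q < δ →
      2 * (edges H).card * (CH H * Real.log (1 / q) + 1 - q) <
        q * ∑ v : V, ((1 / q) ^ (inc H v).card - 1) := by
  have hF : Continuous (fun q : ℝ =>
      2 * ((edges H).card : ℝ) * CH H * (q ^ (d - 2) * Real.negMulLog q)) := by
    have := Real.continuous_negMulLog
    fun_prop
  have hG : Continuous (fun q : ℝ => (vd H d : ℝ) * (1 - q) ^ d) := by fun_prop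
  have h0 : (fun q : ℝ => 2 * ((edges H).card : ℝ) * CH H * (q ^ (d - 2) * Real.negMulLog q)) 0 <
      (fun q : ℝ => (vd H d : ℝ) * (1 - q) ^ d) 0 := by
    have : (0 : ℝ) < vd H d := by exact_mod_cast hv
    simp [Real.negMulLog, this]
  have hev := hF.continuousAt.eventually_lt hG.continuousAt h0
  rw [Metric.eventually_nhds_iff] at hev
  obtain ⟨δ, hδ, h⟩ := hev
  refine ⟨δ, hδ, fun q hq0 hq1 hq => ?_⟩
  have h1 := h (y := q) (by rw [Real.dist_eq, sub_zero, abs_of_pos hq0]; exact hq)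
  have e1 : q ^ (d - 1) * Real.log (1 / q) = q ^ (d - 2) * Real.negMulLog q := by
    obtain ⟨k, hk⟩ : ∃ k, d = k + 2 := ⟨d - 2, by omega⟩
    have e2 : d - 1 = k + 1 := by omega
    have e3 : d - 2 = k := by omega
    rw [e2, e3, one_div, Real.log_inv, Real.negMulLog]
    ring
  have h2 := sum_lower H hq0 hq1 hd
  have h3 : q ^ (d - 1) * (2 * (edges H).card * CH H * Real.log (1 / q)) <
      q ^ (d - 1) * (q * ∑ v : V, ((1 / q) ^ (inc H v).card - 1) -
        2 * (edges H).card * (1 - q)) := by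
    refine lt_of_lt_of_le ?_ h2
    calc q ^ (d - 1) * (2 * ((edges H).card : ℝ) * CH H * Real.log (1 / q)) =
        2 * (edges H).card * CH H * (q ^ (d - 1) * Real.log (1 / q)) := by ring
      _ = 2 * (edges H).card * CH H * (q ^ (d - 2) * Real.negMulLog q) := by rw [e1]
      _ < _ := h1
  have h4 := lt_of_mul_lt_mul_left h3 (by positivity)
  linarith

theorem near_one (H : SimpleGraph V) (D : ℕ) (hm : 0 < mH H) :
    ∃ δ : ℝ, 0 < δ ∧ ∀ q : ℝ, q < 1 → 1 - δ < q →
      8 * (edges H).card * (D : ℝ) ^ 4 * (1 - q) * Real.log (1 / (1 - q)) <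
        mH H * q ^ (3 * D + 2) := by
  have hF : Continuous (fun q : ℝ =>
      8 * ((edges H).card : ℝ) * (D : ℝ) ^ 4 * Real.negMulLog (1 - q)) := by
    have := Real.continuous_negMulLog
    fun_prop
  have hG : Continuous (fun q : ℝ => mH H * q ^ (3 * D + 2)) := by fun_prop
  have h0 : (fun q : ℝ => 8 * ((edges H).card : ℝ) * (D : ℝ) ^ 4 * Real.negMulLog (1 - q)) 1 <
      (fun q : ℝ => mH H * q ^ (3 * D + 2)) 1 := by
    simp [Real.negMulLog, hm]
  have hev := hF.continuousAt.eventually_lt hG.continuousAt h0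
  rw [Metric.eventually_nhds_iff] at hev
  obtain ⟨δ, hδ, h⟩ := hev
  refine ⟨δ, hδ, fun q hq1 hq => ?_⟩
  have h1 := h (y := q) (by rw [Real.dist_eq, abs_of_neg (by linarith)]; linarith)
  have e1 : (1 - q) * Real.log (1 / (1 - q)) = Real.negMulLog (1 - q) := by
    rw [one_div, Real.log_inv, Real.negMulLog]
    ring
  calc 8 * ((edges H).card : ℝ) * (D : ℝ) ^ 4 * (1 - q) * Real.log (1 / (1 - q)) =
        8 * (edges H).card * (D : ℝ) ^ 4 * ((1 - q) * Real.log (1 / (1 - q))) := by ring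
    _ = 8 * (edges H).card * (D : ℝ) ^ 4 * Real.negMulLog (1 - q) := by rw [e1]
    _ < _ := h1

/-- The conclusion for a graph and a pair `(p, q)`. -/
def Exact (H : SimpleGraph V) (p q : ℝ) : Prop :=
  UT H p q ≤ Ip p q ∧ (UT H p q = Ip p q ↔ HubC H p q) ∧
    (UT H p q = Ip p q → ∀ W : Graphon, Feasible H q W → cost p W = UT H p q →
      ∀ᵐ z : unitInterval × unitInterval, W.toFun z.1 z.2 = q)

theorem thresholds (H : SimpleGraph V) (hE : 0 < (edges H).card) :
    ∃ q₀ q₁ : ℝ, 0 < q₀ ∧ q₀ < q₁ ∧ q₁ < 1 ∧ ∀ p q : ℝ, 0 < p → p ≤ q → q < 1 →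
      (q ≤ q₀ ∨ q₁ ≤ q) → Exact H p q := by
  by_cases hdeg : ∀ v, (inc H v).card ≤ 1
  · refine ⟨1 / 4, 3 / 4, by norm_num, by norm_num, by norm_num, ?_⟩
    intro p q hp0 hpq hq1 _
    exact main_all H hE hp0 hpq hq1 hdeg (Or.inl (by rw [CH_zero H hdeg, zero_mul]; exact one_pos))
  · push Not at hdeg
    obtain ⟨v, hv⟩ := hdeg
    have hvd : 0 < vd H (inc H v).card := by
      rw [vd_eq]
      exact Finset.card_pos.mpr ⟨v, Finset.mem_filter.mpr ⟨Finset.mem_univ v, rfl⟩⟩
    have hm : 0 < mH H := by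
      unfold mH
      have h1 : (((inc H v).card - 1 : ℕ) : ℝ) ≤ ∑ w : V, (((inc H w).card - 1 : ℕ) : ℝ) :=
        Finset.single_le_sum (f := fun w => (((inc H w).card - 1 : ℕ) : ℝ))
          (fun w _ => Nat.cast_nonneg _) (Finset.mem_univ v)
      have h2 : (0 : ℝ) < (((inc H v).card - 1 : ℕ) : ℝ) := by
        have : 0 < (inc H v).card - 1 := by omega
        exact_mod_cast this
      linarith
    obtain ⟨δ, hδ, h1⟩ := near_zero H hv hvd
    obtain ⟨δ', hδ', h2⟩ := near_one H (edges H).card hm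
    refine ⟨min (δ / 2) (1 / 4), max (1 - δ' / 2) (3 / 4), lt_min (by linarith) (by norm_num),
      ?_, max_lt (by linarith) (by norm_num), ?_⟩
    · exact lt_of_le_of_lt (min_le_right _ _) (lt_of_lt_of_le (by norm_num) (le_max_right _ _))
    · intro p q hp0 hpq hq1 hq
      have hq0 : 0 < q := hp0.trans_le hpq
      rcases hq with hq | hq
      · have h3 : q < δ := by
          have := hq.trans (min_le_left _ _)
          linarith
        exact main_all H hE hp0 hpq hq1 (fun w => inc_le H w)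
          (Or.inr (Or.inl (h1 q hq0 hq1 h3)))
      · have h3 : 1 - δ' < q := by
          have := (le_max_left _ _).trans hq
          linarith
        exact main_all H hE hp0 hpq hq1 (fun w => inc_le H w)
          (Or.inr (Or.inr (Or.inr (h2 q hq1 h3))))

end Pool.Agent.H959.UG
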